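import Pool.Agent.W642.RS.Qlo
import Pool.Agent.H832R2.JR.Moment
import Pool.Agent.H832R2.JR.Classes

set_option autoImplicit false

/-! Random crossings on a fixed shadow. -/

namespace Pool.Agent.W642.RS

open Finset Function Pool.Agent.H832R2.JR LaurentPolynomial

open Classical in
theorem fixed_shadow (N : ℕ) (G : GaussWord N) (F : ℤ[T;T⁻¹]) :
      (∀ (m : ℕ) (u v : Fin m → Fin N), IsMatching G u v →
        m * (Finset.univ.filter fun w : Fin N → Bool => fPoly G w = F).card ^ 4 ≤
          32 * (2 ^ N) ^ 4) ∧
      classes G * (Finset.univ.filter fun w : Fin N → Bool => fPoly G w = F).card ^ 4 ≤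
        320 * (2 ^ N) ^ 4 := by
  have h1 : ∀ (m : ℕ) (u v : Fin m → Fin N), IsMatching G u v →
        m * (Finset.univ.filter fun w : Fin N → Bool => fPoly G w = F).card ^ 4 ≤
          32 * (2 ^ N) ^ 4 := by
    rintro m u v ⟨hu, hv, huv, hc⟩
    rcases Nat.eq_zero_or_pos m with rfl | hm
    · simp
    obtain ⟨K, hK⟩ := second_moment G (u ⟨0, hm⟩)
    have hne : ∀ k, adjm G (u k) (v k) ≠ 0 := by
      intro k
      unfold adjm
      rw [if_pos (hc k)]
      exact one_ne_zero
    have hinj : Injective (Sum.elim u v) := by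
      rintro (a | a) (b | b) hab
      · exact congrArg Sum.inl (hu (by simpa using hab))
      · exact absurd (by simpa using hab) (huv a b)
      · exact absurd (by simpa using hab.symm) (huv b a)
      · exact congrArg Sum.inr (hv (by simpa using hab))
    have h2 := qlo N m (adjm G) (adjm_symm G) u v hinj hne ((K - rho F 0 2) / 12)
    refine le_trans ?_ h2
    gcongr with w
    intro hw
    have e1 := hK w
    rw [hw] at e1
    omega
  refine ⟨h1, ?_⟩
  obtain ⟨m, u, v, huv, hmax⟩ := exists_maximal G
  have h2 := h1 m u v huv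
  have h3 := classes_le G u v hmax
  calc classes G * (Finset.univ.filter fun w : Fin N → Bool => fPoly G w = F).card ^ 4 ≤
        (10 * m) * (Finset.univ.filter fun w : Fin N → Bool => fPoly G w = F).card ^ 4 := by gcongr
    _ = 10 * (m * (Finset.univ.filter fun w : Fin N → Bool => fPoly G w = F).card ^ 4) := by ring
    _ ≤ 10 * (32 * (2 ^ N) ^ 4) := by gcongr
    _ = _ := by ring

end Pool.Agent.W642.RS
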