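import Pool.Agent.H832R2.JR.Defs

set_option autoImplicit false

/-!
# Knots made of stacked arcs

A *stack* consists of the Gauss word of a knot diagram with `N` crossings, whose curve is divided
into `n` consecutive arcs (`arc x` is the number of the arc which contains the passage `x`), such
that no arc crosses itself and any two arcs cross at most once.  If the arcs are put at the heights
`h 0, h 1, …` (`h` a permutation), then the crossing `c` of the arcs `i` and `j` has a sign which
depends on which of the two arcs is the higher one.
-/

namespace Pool.Agent.W642.RS

open Finset LaurentPolynomial Pool.Agent.H832R2.JR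

/-- The Gauss word of a closed curve which is divided into `n` consecutive arcs without
self-crossings, any two of which cross at most once. -/
structure Stack (N n : ℕ) where
  /-- the Gauss word of the curve -/
  G : GaussWord N
  /-- the arc which contains the passage `x` of a crossing -/
  arc : Fin N × Bool → Fin n
  /-- the arcs are consecutive pieces of the curve -/
  mono : ∀ x y, G x ≤ G y → arc x ≤ arc y
  /-- no arc crosses itself -/
  ne : ∀ c, arc (c, false) ≠ arc (c, true)
  /-- two arcs cross at most once -/
  once : ∀ c d, s(arc (c, false), arc (c, true)) = s(arc (d, false), arc (d, true)) → c = d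
  /-- the sign of the crossing `c` if the arc of `(c, true)` is the lower one -/
  sign : Fin N → Bool

/-- the signs of the crossings if the arc `i` lies at height `h i` -/
def Stack.signs {N n : ℕ} (D : Stack N n) (h : Equiv.Perm (Fin n)) : Fin N → Bool :=
  fun c => xor (D.sign c) (decide (h (D.arc (c, false)) < h (D.arc (c, true))))

/-- the normalised Kauffman bracket of the knot diagram with the arc `i` at height `h i` -/
noncomputable def Stack.f {N n : ℕ} (D : Stack N n) (h : Equiv.Perm (Fin n)) : ℤ[T;T⁻¹] :=
  fPoly D.G (D.signs h)

/-- The edges `i` and `j` of the closed polygon with the vertices `r 0, r 1, …, r (n-1)`, numbers of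
points on a circle in their cyclic order (the edge `i` joins `r i` and `r (i+1)`), cross: they have
no common vertex, and exactly one of the vertices `r j`, `r (j+1)` lies between `r i` and
`r (i+1)`. -/
def EdgesCross {n : ℕ} (r : Equiv.Perm (Fin n)) (i j : Fin n) : Prop :=
  i ≠ j ∧ finRotate n i ≠ j ∧ finRotate n j ≠ i ∧
    ¬ (Btw (r i) (r (finRotate n i)) (r j) ↔ Btw (r i) (r (finRotate n i)) (r (finRotate n j)))

/-- the stack `D` describes the edges of the closed polygon with the vertices `r 0, r 1, …` on a
circle -/
def IsPolygon {N n : ℕ} (r : Equiv.Perm (Fin n)) (D : Stack N n) : Prop :=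
  ∀ i j, EdgesCross r i j ↔ ∃ c, s(D.arc (c, false), D.arc (c, true)) = s(i, j)

end Pool.Agent.W642.RS
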