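import Pool.Agent.W642.RS.Stms

set_option autoImplicit false

/-! Most rows of the decoupled form have nonzero coefficients with probability `1 - C / √m`. -/

namespace Pool.Agent.W642.RS

open Finset Function Pool.Agent.H832R2.JR

variable {N m : ℕ}

/-- pairs of assignments -/
abbrev WW (N : ℕ) : Type := (Fin N → Bool) × (Fin N → Bool)

/-- `p` on `U` and `q` elsewhere -/
def mg (U : Finset (Fin N)) (p q : WW N) : WW N :=
  (fun j => if j ∈ U then p.1 j else q.1 j, fun j => if j ∈ U then p.2 j else q.2 j)

/-- the linear forms -/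
def LL (M : Fin m → Fin N → ℤ) (k : Fin m) (p : WW N) : ℤ :=
  ∑ j, M k j * (sgn (p.1 j) - sgn (p.2 j))

/-- few nonzero values -/
def Bad (M : Fin m → Fin N → ℤ) (p : WW N) : Prop :=
  8 * (univ.filter fun k => LL M k p ≠ 0).card < m

instance (M : Fin m → Fin N → ℤ) (p : WW N) : Decidable (Bad M p) := by
  unfold Bad; infer_instance

theorem mg_mg (U U' : Finset (Fin N)) (h : U ⊆ U') (p q q' : WW N) :
    mg U' (mg U p q) q' = mg U p (mg U' q q') := by
  unfold mg
  ext j
  · by_cases h1 : j ∈ U
    · simp [h1, h h1]
    · by_cases h2 : j ∈ U' <;> simp [h1, h2]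
  · by_cases h1 : j ∈ U
    · simp [h1, h h1]
    · by_cases h2 : j ∈ U' <;> simp [h1, h2]

/-- resampling the coordinates outside `U` -/
theorem sum_mg (U : Finset (Fin N)) (F : WW N → ℝ) :
    ∑ q : WW N, ∑ q' : WW N, F (mg U q q') = 4 ^ N * ∑ q : WW N, F q := by
  rw [← Fintype.sum_prod_type' (f := fun q q' => F (mg U q q'))]
  have e : ∑ x : WW N × WW N, F (mg U x.1 x.2) = ∑ x : WW N × WW N, F x.1 := by
    refine Fintype.sum_equiv (Function.Involutive.toPerm
      (fun x : WW N × WW N => (mg U x.1 x.2, mg U x.2 x.1)) ?_) _ _ ?_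
    · rintro ⟨q, q'⟩
      unfold mg
      ext j <;> by_cases h1 : j ∈ U <;> simp [h1]
    · rintro ⟨q, q'⟩
      rfl
  rw [e, Fintype.sum_prod_type]
  simp only [sum_const, card_univ, nsmul_eq_mul, Fintype.card_prod, Fintype.card_fun,
    Fintype.card_bool, Fintype.card_fin]
  rw [← mul_sum]
  push_cast
  rw [← mul_pow]
  norm_num

theorem LL_mg (M : Fin m → Fin N → ℤ) (k : Fin m) (U : Finset (Fin N)) (p q : WW N) :
    LL M k (mg U p q) = ∑ j, (if j ∈ U then M k j * (sgn (p.1 j) - sgn (p.2 j)) else 0) +
      ∑ j, (if j ∈ U then 0 else M k j) * (sgn (q.1 j) - sgn (q.2 j)) := by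
  unfold LL mg
  rw [← sum_add_distrib]
  refine sum_congr rfl fun j _ => ?_
  by_cases h : j ∈ U <;> simp [h]

theorem LL_congr (M : Fin m → Fin N → ℤ) (k : Fin m) (p q : WW N)
    (h : ∀ j, M k j ≠ 0 → p.1 j = q.1 j ∧ p.2 j = q.2 j) : LL M k p = LL M k q := by
  unfold LL
  refine sum_congr rfl fun j _ => ?_
  by_cases h0 : M k j = 0
  · simp [h0]
  · rw [(h j h0).1, (h j h0).2]

/-- the linear Littlewood–Offord inequality for the remaining coordinates -/
theorem lo_rel (M : Fin m → Fin N → ℤ) (k : Fin m) (U : Finset (Fin N)) (p : WW N) :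
    ((univ.filter fun q : WW N => LL M k (mg U p q) = 0).card : ℝ) *
      √((univ.filter fun j => j ∉ U ∧ M k j ≠ 0).card : ℝ) ≤ 4 ^ N := by
  set a : Fin N → ℤ := fun j => if j ∈ U then 0 else M k j with ha
  set c : ℤ := ∑ j, (if j ∈ U then M k j * (sgn (p.1 j) - sgn (p.2 j)) else 0) with hc
  have h1 : ∀ q : WW N, (LL M k (mg U p q) = 0 ↔
      ∑ j, sgn (q.1 j) * a j = ∑ j, sgn (q.2 j) * a j - c) := by
    intro q
    rw [LL_mg]
    have : ∑ j, (if j ∈ U then 0 else M k j) * (sgn (q.1 j) - sgn (q.2 j)) =
        ∑ j, sgn (q.1 j) * a j - ∑ j, sgn (q.2 j) * a j := by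
      rw [← sum_sub_distrib]
      refine sum_congr rfl fun j _ => ?_
      simp only [ha]
      ring
    rw [this, ← hc]
    constructor <;> intro h <;> linarith
  have h2 : ((univ.filter fun q : WW N => LL M k (mg U p q) = 0).card : ℝ) =
      ∑ y' : Fin N → Bool, ((univ.filter fun y : Fin N → Bool =>
        ∑ j, sgn (y j) * a j = ∑ j, sgn (y' j) * a j - c).card : ℝ) := by
    have h3 : ∀ y' : Fin N → Bool, ((univ.filter fun y : Fin N → Bool =>
        ∑ j, sgn (y j) * a j = ∑ j, sgn (y' j) * a j - c).card : ℝ) = ∑ y : Fin N → Bool,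
          (if ∑ j, sgn (y j) * a j = ∑ j, sgn (y' j) * a j - c then (1 : ℝ) else 0) := by
      intro y'; simp
    rw [sum_congr rfl (fun y' _ => h3 y'), sum_comm, ← Fintype.sum_prod_type'
      (f := fun (y y' : Fin N → Bool) => (if ∑ j, sgn (y j) * a j = ∑ j, sgn (y' j) * a j - c then (1 : ℝ) else 0))]
    rw [card_filter]
    push_cast
    refine sum_congr rfl fun q _ => ?_
    by_cases h : LL M k (mg U p q) = 0
    · rw [if_pos h, if_pos ((h1 q).1 h)]
    · rw [if_neg h, if_neg (fun h' => h ((h1 q).2 h'))]
  have h4 : (univ.filter fun j => j ∉ U ∧ M k j ≠ 0) = univ.filter fun j => a j ≠ 0 := by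
    ext j
    simp only [mem_filter, mem_univ, true_and, ha]
    by_cases h : j ∈ U <;> simp [h]
  rw [h2, h4, sum_mul]
  calc _ ≤ ∑ _y' : Fin N → Bool, (2 : ℝ) ^ N := by
        refine sum_le_sum fun y' _ => ?_
        have := LO a (∑ j, sgn (y' j) * a j - c)
        rw [Fintype.card_fin] at this
        exact this
    _ = 4 ^ N := by
        rw [sum_const, card_univ, nsmul_eq_mul, Fintype.card_fun, Fintype.card_bool,
          Fintype.card_fin]
        push_cast
        rw [← mul_pow]
        norm_num

/-- the trivial bound: at most one half -/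
theorem lo_half (M : Fin m → Fin N → ℤ) (k : Fin m) (U : Finset (Fin N)) (p : WW N)
    (j₀ : Fin N) (h1 : j₀ ∉ U) (h2 : M k j₀ ≠ 0) :
    ((univ.filter fun q : WW N => LL M k (mg U p q) = 0).card : ℝ) * 2 ≤ 4 ^ N := by
  classical
  set S := univ.filter fun q : WW N => LL M k (mg U p q) = 0 with hS
  let fl : WW N → WW N := fun q => (Function.update q.1 j₀ (!q.1 j₀), q.2)
  have hinv : ∀ q, fl (fl q) = q := by
    intro q
    simp only [fl]
    ext j
    · by_cases h : j = j₀
      · subst h; simp
      · simp [h]
    · rfl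
  have hdiff : ∀ q, LL M k (mg U p (fl q)) = LL M k (mg U p q) - 2 * (M k j₀ * sgn (q.1 j₀)) := by
    intro q
    rw [LL_mg, LL_mg, add_sub_assoc]
    congr 1
    have : ∑ j, (if j ∈ U then 0 else M k j) * (sgn (q.1 j) - sgn (q.2 j)) -
        ∑ j, (if j ∈ U then 0 else M k j) * (sgn ((fl q).1 j) - sgn ((fl q).2 j)) =
        2 * (M k j₀ * sgn (q.1 j₀)) := by
      rw [← sum_sub_distrib, sum_eq_single j₀]
      · rw [if_neg h1]
        simp only [fl, Function.update_self]
        cases q.1 j₀ <;> simp [sgn] <;> ring
      · intro j _ hj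
        simp only [fl, Function.update_of_ne hj]
        ring
      · intro h; exact absurd (mem_univ _) h
    linarith
  have hsgn : ∀ b, sgn b ≠ 0 := by intro b; cases b <;> simp [sgn]
  have hdisj : Disjoint S (S.image fl) := by
    rw [disjoint_left]
    intro q hq hq'
    rw [mem_image] at hq'
    obtain ⟨q', hq1, rfl⟩ := hq'
    rw [hS, mem_filter] at hq hq1
    have h3 := hdiff q'
    rw [hq.2, hq1.2] at h3
    have h4 : M k j₀ * sgn (q'.1 j₀) = 0 := by linarith
    rcases mul_eq_zero.1 h4 with h5 | h5
    · exact h2 h5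
    · exact hsgn _ h5
  have hcard : (S.image fl).card = S.card :=
    card_image_of_injective _ (fun a b h => by rw [← hinv a, ← hinv b, h])
  have h3 : S.card + S.card ≤ Fintype.card (WW N) := by
    calc S.card + S.card = (S ∪ S.image fl).card := by
          rw [card_union_of_disjoint hdisj, hcard]
      _ ≤ _ := card_le_univ _
  have h4 : (Fintype.card (WW N) : ℝ) = 4 ^ N := by
    simp only [Fintype.card_prod, Fintype.card_fun, Fintype.card_bool, Fintype.card_fin]
    push_cast
    rw [← mul_pow]
    norm_num
  rw [← h4]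
  have h5 : ((S.card + S.card : ℕ) : ℝ) ≤ (Fintype.card (WW N) : ℝ) := by exact_mod_cast h3
  push_cast at h5
  linarith

/-- the number of bad points if the coordinates in `U` are given by `p` -/
noncomputable def BB (M : Fin m → Fin N → ℤ) (U : Finset (Fin N)) (p : WW N) : ℝ :=
  ((univ.filter fun q : WW N => Bad M (mg U p q)).card : ℝ)

/-- resampling: the number of bad points with `LL k = 0` -/
theorem split_row (M : Fin m → Fin N → ℤ) (k : Fin m) (U U' : Finset (Fin N)) (hU : U ⊆ U')
    (hs : ∀ j, M k j ≠ 0 → j ∈ U') (p : WW N) :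
    4 ^ N * ((univ.filter fun q : WW N => LL M k (mg U p q) = 0 ∧ Bad M (mg U p q)).card : ℝ) =
      ∑ q : WW N, if LL M k (mg U p q) = 0 then BB M U' (mg U p q) else 0 := by
  set F : WW N → ℝ := fun q => if LL M k (mg U p q) = 0 ∧ Bad M (mg U p q) then 1 else 0 with hF
  have h1 := sum_mg U' F
  have h2 : ((univ.filter fun q : WW N => LL M k (mg U p q) = 0 ∧ Bad M (mg U p q)).card : ℝ) =
      ∑ q, F q := by
    rw [card_filter]; push_cast; rfl
  rw [h2, ← h1]
  refine sum_congr rfl fun q _ => ?_
  have h3 : ∀ q', LL M k (mg U p (mg U' q q')) = LL M k (mg U p q) := by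
    intro q'
    apply LL_congr
    intro j hj
    have := hs j hj
    unfold mg
    by_cases h : j ∈ U <;> simp [h, this]
  by_cases h : LL M k (mg U p q) = 0
  · rw [if_pos h]
    unfold BB
    rw [card_filter]
    push_cast
    refine sum_congr rfl fun q' _ => ?_
    simp only [hF]
    rw [h3, mg_mg U U' hU]
    simp [h]
  · rw [if_neg h]
    refine sum_eq_zero fun q' _ => ?_
    simp only [hF]
    rw [h3, if_neg (fun h' => h h'.1)]

/-- the number of rows whose diagonal column is in `U` -/
def uu (v : Fin m → Fin N) (U : Finset (Fin N)) : ℕ := (univ.filter fun k => v k ∈ U).card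

theorem uu_le (v : Fin m → Fin N) (hv : Injective v) (U T : Finset (Fin N)) :
    uu v (U ∪ T) ≤ uu v U + (T \ U).card := by
  unfold uu
  have h1 : (univ.filter fun k => v k ∈ U ∪ T) ⊆
      (univ.filter fun k => v k ∈ U) ∪ (univ.filter fun k => v k ∈ T \ U) := by
    intro k hk
    simp only [mem_filter, mem_univ, true_and, mem_union, mem_sdiff] at hk ⊢
    tauto
  have h2 : (univ.filter fun k => v k ∈ T \ U).card ≤ (T \ U).card := by
    rw [← card_image_of_injective _ hv]
    apply card_le_card
    intro j hj
    simp only [mem_image, mem_filter, mem_univ, true_and] at hj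
    obtain ⟨k, hk, rfl⟩ := hj
    exact hk
  calc _ ≤ _ := card_le_card h1
    _ ≤ _ := card_union_le _ _
    _ ≤ _ := by omega

theorem few_aux (M : Fin m → Fin N → ℤ) (v : Fin m → Fin N) (hv : Injective v)
    (hd : ∀ k, M k (v k) ≠ 0) (n : ℕ) : ∀ (U : Finset (Fin N)), N - U.card ≤ n →
    2 * uu v U < m → ∀ p : WW N,
    √((m : ℝ) - 2 * uu v U) * BB M U p ≤ √8 * 4 ^ N := by
  induction n with
  | zero =>
    intro U hU hu p
    exfalso
    have h1 : U.card = N := by
      have := card_le_univ U
      rw [Fintype.card_fin] at this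
      omega
    have h2 : U = univ := by
      apply Finset.eq_univ_of_card
      rw [h1, Fintype.card_fin]
    have h3 : uu v U = m := by
      unfold uu
      rw [h2]
      simp
    omega
  | succ n ih =>
    intro U hU hu p
    set s : ℝ := 4 ^ N with hs
    have hs0 : 0 < s := by positivity
    set u : ℕ := uu v U with hu'
    set D : ℝ := (m : ℝ) - 2 * u with hD
    have hD0 : 0 < D := by
      have : ((2 * u : ℕ) : ℝ) < (m : ℝ) := by exact_mod_cast hu
      push_cast at this
      rw [hD]; linarith
    set t : ℝ := BB M U p with ht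
    have hsD : 0 < √D := Real.sqrt_pos.2 hD0
    -- the rows outside
    have hrow : ∀ k, v k ∉ U → ((univ.filter fun q : WW N =>
        LL M k (mg U p q) = 0 ∧ Bad M (mg U p q)).card : ℝ) * √D ≤ 2 * s := by
      intro k hk
      set T : Finset (Fin N) := univ.filter fun j => M k j ≠ 0 with hT
      set d : ℕ := (T \ U).card with hdd
      have hTU : (univ.filter fun j => j ∉ U ∧ M k j ≠ 0) = T \ U := by
        ext j
        simp only [mem_filter, mem_univ, true_and, mem_sdiff, hT]
        tauto
      have hd1 : 1 ≤ d := by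
        rw [hdd, Nat.one_le_iff_ne_zero, Ne, card_eq_zero]
        intro h
        have : v k ∈ T \ U := by
          rw [mem_sdiff, hT, mem_filter]
          exact ⟨⟨mem_univ _, hd k⟩, hk⟩
        rw [h] at this
        exact absurd this (notMem_empty _)
      set z : ℝ := ((univ.filter fun q : WW N => LL M k (mg U p q) = 0).card : ℝ) with hz
      have hz0 : 0 ≤ z := by rw [hz]; positivity
      have hz1 : z * √(d : ℝ) ≤ s := by
        have := lo_rel M k U p
        rw [hTU] at this
        exact this
      have hz2 : z * 2 ≤ s := lo_half M k U p (v k) hk (hd k)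
      by_cases hcase : D ≤ 4 * d
      · -- many fresh columns
        have h1 : ((univ.filter fun q : WW N =>
            LL M k (mg U p q) = 0 ∧ Bad M (mg U p q)).card : ℝ) ≤ z := by
          rw [hz]
          exact_mod_cast card_le_card (fun q hq => by
            rw [mem_filter] at hq ⊢
            exact ⟨hq.1, hq.2.1⟩)
        have h2 : √D ≤ 2 * √(d : ℝ) := by
          rw [show (2 : ℝ) * √(d : ℝ) = √(4 * d) by
            rw [Real.sqrt_mul (by norm_num)]
            congr 1
            rw [show (4 : ℝ) = 2 ^ 2 by norm_num, Real.sqrt_sq (by norm_num)]]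
          exact Real.sqrt_le_sqrt hcase
        calc _ ≤ z * √D := by gcongr
          _ ≤ z * (2 * √(d : ℝ)) := by gcongr
          _ = 2 * (z * √(d : ℝ)) := by ring
          _ ≤ 2 * s := by linarith
      · push Not at hcase
        set U' : Finset (Fin N) := U ∪ T with hU'
        have hsub : U ⊆ U' := subset_union_left
        have hcard : N - U'.card ≤ n := by
          have h3 : U.card < U'.card := by
            apply card_lt_card
            refine ⟨hsub, fun h => ?_⟩
            apply hk
            apply h
            rw [hU', mem_union, hT, mem_filter]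
            exact Or.inr ⟨mem_univ _, hd k⟩
          omega
        have hu2 : uu v U' ≤ u + d := uu_le v hv U T
        have hu3 : ((uu v U' : ℕ) : ℝ) ≤ u + d := by exact_mod_cast hu2
        have hD' : D / 2 ≤ (m : ℝ) - 2 * uu v U' := by
          rw [hD] at hcase ⊢
          linarith
        have hu4 : 2 * uu v U' < m := by
          have : (2 : ℝ) * (uu v U' : ℕ) < (m : ℝ) := by linarith
          exact_mod_cast this
        have hIH := fun q => ih U' hcard hu4 q
        have h4 : ∀ q, BB M U' q * √D ≤ 4 * s := by
          intro q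
          have h5 := hIH q
          have h6 : √D ≤ √2 * √((m : ℝ) - 2 * uu v U') := by
            rw [← Real.sqrt_mul (by norm_num)]
            apply Real.sqrt_le_sqrt
            linarith
          have hB0 : 0 ≤ BB M U' q := by unfold BB; positivity
          have h7 : √2 * √8 = 4 := by
            rw [← Real.sqrt_mul (by norm_num)]
            rw [show (2 : ℝ) * 8 = 4 ^ 2 by norm_num, Real.sqrt_sq (by norm_num)]
          calc BB M U' q * √D ≤ BB M U' q * (√2 * √((m : ℝ) - 2 * uu v U')) := by gcongr
            _ = √2 * (√((m : ℝ) - 2 * uu v U') * BB M U' q) := by ring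
            _ ≤ √2 * (√8 * s) := by gcongr
            _ = 4 * s := by rw [← mul_assoc, h7]
        have h8 := split_row M k U U' hsub (fun j hj => by
          rw [hU', mem_union, hT, mem_filter]
          exact Or.inr ⟨mem_univ _, hj⟩) p
        have h9 : s * ((univ.filter fun q : WW N =>
            LL M k (mg U p q) = 0 ∧ Bad M (mg U p q)).card : ℝ) * √D ≤ s * (2 * s) := by
          rw [h8, sum_mul]
          calc _ ≤ ∑ q : WW N, if LL M k (mg U p q) = 0 then 4 * s else 0 := by
                refine sum_le_sum fun q _ => ?_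
                split_ifs
                · exact h4 _
                · simp
            _ = z * (4 * s) := by
                rw [← sum_filter, sum_const, nsmul_eq_mul, hz]
            _ = (z * 2) * (2 * s) := by ring
            _ ≤ s * (2 * s) := by gcongr
        rw [mul_assoc] at h9
        exact le_of_mul_le_mul_left h9 hs0
    -- counting zero rows
    have ht0 : 0 ≤ t := by rw [ht]; unfold BB; positivity
    have hsum : (7 / 8 * m : ℝ) * t ≤ ∑ k, ((univ.filter fun q : WW N =>
        LL M k (mg U p q) = 0 ∧ Bad M (mg U p q)).card : ℝ) := by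
      have h1 : ∑ k, ((univ.filter fun q : WW N =>
          LL M k (mg U p q) = 0 ∧ Bad M (mg U p q)).card : ℝ) =
          ∑ q : WW N, if Bad M (mg U p q) then
            ((univ.filter fun k => LL M k (mg U p q) = 0).card : ℝ) else 0 := by
        have h2 : ∀ k, ((univ.filter fun q : WW N =>
          LL M k (mg U p q) = 0 ∧ Bad M (mg U p q)).card : ℝ) = ∑ q : WW N,
            (if LL M k (mg U p q) = 0 ∧ Bad M (mg U p q) then (1 : ℝ) else 0) := by
          intro k; rw [card_filter]; push_cast; rfl
        rw [sum_congr rfl (fun k _ => h2 k), sum_comm]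
        refine sum_congr rfl fun q _ => ?_
        by_cases h : Bad M (mg U p q)
        · rw [if_pos h, card_filter]
          push_cast
          refine sum_congr rfl fun k _ => ?_
          simp [h]
        · rw [if_neg h]
          refine sum_eq_zero fun k _ => ?_
          rw [if_neg (fun h' => h h'.2)]
      rw [h1, ht]
      unfold BB
      rw [card_filter]
      push_cast
      rw [mul_sum]
      refine sum_le_sum fun q _ => ?_
      by_cases h : Bad M (mg U p q)
      · rw [if_pos h, if_pos h, mul_one]
        have h3 : (univ.filter fun k => LL M k (mg U p q) = 0).card +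
            (univ.filter fun k => LL M k (mg U p q) ≠ 0).card = m := by
          have := card_filter_add_card_filter_not (s := (univ : Finset (Fin m)))
            (p := fun k => LL M k (mg U p q) = 0)
          rw [card_univ, Fintype.card_fin] at this
          exact this
        unfold Bad at h
        have h4 : ((univ.filter fun k => LL M k (mg U p q) = 0).card : ℝ) +
            ((univ.filter fun k => LL M k (mg U p q) ≠ 0).card : ℝ) = m := by exact_mod_cast h3
        have h5 : (8 : ℝ) * ((univ.filter fun k => LL M k (mg U p q) ≠ 0).card : ℝ) ≤ m := by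
          exact_mod_cast h.le
        linarith
      · rw [if_neg h, if_neg h, mul_zero]
    have hsum2 : (∑ k, ((univ.filter fun q : WW N =>
        LL M k (mg U p q) = 0 ∧ Bad M (mg U p q)).card : ℝ)) * √D ≤
        u * (t * √D) + (m - u) * (2 * s) := by
      rw [← sum_filter_add_sum_filter_not (univ : Finset (Fin m)) (fun k => v k ∈ U), add_mul]
      have hcu : ((univ.filter fun k => v k ∈ U).card : ℝ) = u := rfl
      have hcn : ((univ.filter fun k => ¬ v k ∈ U).card : ℝ) = m - u := by
        have := card_filter_add_card_filter_not (s := (univ : Finset (Fin m)))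
            (p := fun k => v k ∈ U)
        rw [card_univ, Fintype.card_fin] at this
        have h2 : ((univ.filter fun k => v k ∈ U).card : ℝ) +
          ((univ.filter fun k => ¬ v k ∈ U).card : ℝ) = m := by exact_mod_cast this
        linarith
      refine add_le_add ?_ ?_
      · rw [sum_mul, ← hcu, ← nsmul_eq_mul]
        apply sum_le_card_nsmul
        intro k _
        refine mul_le_mul_of_nonneg_right ?_ hsD.le
        rw [ht]
        unfold BB
        exact_mod_cast card_le_card (fun q hq => by
            rw [mem_filter] at hq ⊢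
            exact ⟨hq.1, hq.2.2⟩)
      · rw [sum_mul, ← hcn, ← nsmul_eq_mul]
        apply sum_le_card_nsmul
        intro k hk
        rw [mem_filter] at hk
        exact hrow k hk.2
    -- conclusion
    have hum : (u : ℝ) ≤ m / 2 := by rw [hD] at hD0; linarith
    have h1 : (7 / 8 * m - u : ℝ) * (t * √D) ≤ (m - u) * (2 * s) := by
      have h2 := mul_le_mul_of_nonneg_right hsum hsD.le
      nlinarith
    have hm0 : (0 : ℝ) < m := by
      have : 0 < m := by omega
      exact_mod_cast this
    have h2 : (7 / 8 * m - u : ℝ) * (t * √D) ≤ (7 / 8 * m - u) * (8 / 3 * s) := by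
      refine h1.trans ?_
      have : (m - u : ℝ) ≤ 4 / 3 * (7 / 8 * m - u) := by linarith
      nlinarith
    have h3 : t * √D ≤ 8 / 3 * s := le_of_mul_le_mul_left h2 (by linarith)
    have h4 : (8 / 3 : ℝ) ≤ √8 := by
      apply Real.le_sqrt_of_sq_le
      norm_num
    calc √D * t = t * √D := by ring
      _ ≤ 8 / 3 * s := h3
      _ ≤ √8 * s := by gcongr

/-- Few coefficients are nonzero only with probability `√8 / √m`. -/
theorem few (M : Fin m → Fin N → ℤ) (v : Fin m → Fin N) (hv : Injective v)
    (hd : ∀ k, M k (v k) ≠ 0) :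
    √(m : ℝ) * ((univ.filter fun q : WW N => Bad M q).card : ℝ) ≤ √8 * 4 ^ N := by
  rcases Nat.eq_zero_or_pos m with rfl | hm
  · simp only [Nat.cast_zero, Real.sqrt_zero, zero_mul]
    positivity
  · have h1 : uu v ∅ = 0 := by unfold uu; simp
    have h := few_aux M v hv hd (N - (∅ : Finset (Fin N)).card) ∅ le_rfl (by rw [h1]; omega)
      (fun _ => true, fun _ => true)
    rw [h1] at h
    have h2 : BB M ∅ (fun _ => true, fun _ => true) =
        ((univ.filter fun q : WW N => Bad M q).card : ℝ) := by
      have h3 : ∀ q : WW N, mg ∅ ((fun _ => true, fun _ => true) : WW N) q = q := by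
        intro q
        unfold mg
        simp
      unfold BB
      simp only [h3]
    rw [h2] at h
    simpa using h

end Pool.Agent.W642.RS
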