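import Pool.Agent.W642.RS.Stms

/-!
# RS-VAR: second moment for alternating pairs at neighbouring places
-/

set_option autoImplicit false

namespace Pool.Agent.W642.RS

open Finset

namespace VarAux

variable {n : ℕ}

theorem three (h : Equiv.Perm (Fin n)) {a b c : Fin n} (hab : a ≠ b) (hac : a ≠ c)
    (hbc : b ≠ c) (h1 : (h a : ℕ) / 2 = (h b : ℕ) / 2) (h2 : (h a : ℕ) / 2 = (h c : ℕ) / 2) :
    False := by
  have e1 : (h a : ℕ) ≠ h b := fun e => hab (h.injective (Fin.ext e))
  have e2 : (h a : ℕ) ≠ h c := fun e => hac (h.injective (Fin.ext e))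
  have e3 : (h b : ℕ) ≠ h c := fun e => hbc (h.injective (Fin.ext e))
  omega

/-- the edges have no common point -/
def Dj (e f : Fin n × Fin n) : Prop := e.1 ≠ f.1 ∧ e.1 ≠ f.2 ∧ e.2 ≠ f.1 ∧ e.2 ≠ f.2

theorem dj_of_paired {h : Equiv.Perm (Fin n)} {e f : Fin n × Fin n} (he : e.1 < e.2)
    (hf : f.1 < f.2) (h1 : Paired h e) (h2 : Paired h f) (hne : e ≠ f) : Dj e f := by
  unfold Paired at h1 h2
  refine ⟨fun h3 => ?_, fun h3 => ?_, fun h3 => ?_, fun h3 => ?_⟩
  · refine three h (a := e.1) (b := e.2) (c := f.2) he.ne ?_ ?_ h1 ?_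
    · rw [h3]; exact hf.ne
    · intro h4
      exact hne (Prod.ext h3 h4)
    · rw [h3]; exact h2
  · refine three h (a := e.1) (b := e.2) (c := f.1) he.ne ?_ ?_ h1 ?_
    · rw [h3]; exact hf.ne'
    · intro h4
      rw [h3, h4] at he
      exact lt_asymm he hf
    · rw [h3]; exact h2.symm
  · refine three h (a := e.2) (b := e.1) (c := f.2) he.ne' ?_ ?_ h1.symm ?_
    · rw [h3]; exact hf.ne
    · intro h4
      rw [h3, h4] at he
      exact lt_asymm he hf
    · rw [h3]; exact h2
  · refine three h (a := e.2) (b := e.1) (c := f.1) he.ne' ?_ ?_ h1.symm ?_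
    · rw [h3]; exact hf.ne'
    · intro h4
      exact hne (Prod.ext h4 h3)
    · rw [h3]; exact h2.symm

/-- the number of permutations pairing all elements of `S` -/
def cnt (S : Finset (Fin n × Fin n)) : ℕ :=
  (univ.filter fun h : Equiv.Perm (Fin n) => ∀ e ∈ S, Paired h e).card

/-- the largest odd number at most `n` -/
def odd' (n : ℕ) : ℕ := 2 * ((n + 1) / 2) - 1

theorem desc_eq (n j : ℕ) : n.descFactorial (2 * j) =
    2 ^ j * (n / 2).descFactorial j * ∏ i ∈ range j, (odd' n - 2 * i) := by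
  induction j with
  | zero => simp
  | succ j ih =>
    have h1 : 2 * (j + 1) = 2 * j + 1 + 1 := by ring
    rw [h1, Nat.descFactorial_succ, Nat.descFactorial_succ, ih, Nat.descFactorial_succ,
      prod_range_succ]
    have h2 : (n - (2 * j + 1)) * (n - 2 * j) = 2 * (n / 2 - j) * (odd' n - 2 * j) := by
      unfold odd'
      rcases Nat.even_or_odd' n with ⟨m, rfl | rfl⟩
      · have e1 : 2 * m / 2 = m := by omega
        have e2 : 2 * ((2 * m + 1) / 2) - 1 - 2 * j = 2 * m - (2 * j + 1) := by omega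
        have e3 : 2 * m - 2 * j = 2 * (m - j) := by omega
        rw [e1, e2, e3]
        ring
      · have e1 : (2 * m + 1) / 2 = m := by omega
        have e2 : 2 * ((2 * m + 1 + 1) / 2) - 1 - 2 * j = 2 * m + 1 - 2 * j := by omega
        have e3 : 2 * m + 1 - (2 * j + 1) = 2 * (m - j) := by omega
        rw [e1, e2, e3]
    calc (n - (2 * j + 1)) * ((n - 2 * j) *
          (2 ^ j * (n / 2).descFactorial j * ∏ i ∈ range j, (odd' n - 2 * i)))
        = ((n - (2 * j + 1)) * (n - 2 * j)) *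
          (2 ^ j * (n / 2).descFactorial j * ∏ i ∈ range j, (odd' n - 2 * i)) := by ring
      _ = _ := by rw [h2]; ring

theorem cnt_eq (hcount : S_count) (S : Finset (Fin n × Fin n)) (hS : ∀ e ∈ S, e.1 < e.2)
    (hd : ∀ e ∈ S, ∀ f ∈ S, e ≠ f → Dj e f) (hn : 2 * S.card ≤ n) :
    cnt S * ∏ i ∈ range S.card, (odd' n - 2 * i) = n.factorial := by
  set g := S.equivFin.symm with hg
  have h1 := hcount n S.card (fun i => (g i).1.1) (fun i => (g i).1.2) (by
    refine Function.Injective.sumElim ?_ ?_ ?_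
    · intro i j hij
      by_contra hne
      have h2 : (g i).1 ≠ (g j).1 := fun h3 => hne (g.injective (Subtype.ext h3))
      exact (hd _ (g i).2 _ (g j).2 h2).1 hij
    · intro i j hij
      by_contra hne
      have h2 : (g i).1 ≠ (g j).1 := fun h3 => hne (g.injective (Subtype.ext h3))
      exact (hd _ (g i).2 _ (g j).2 h2).2.2.2 hij
    · intro i j hij
      by_cases hne : i = j
      · subst hne
        exact (hS _ (g i).2).ne hij
      · have h2 : (g i).1 ≠ (g j).1 := fun h3 => hne (g.injective (Subtype.ext h3))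
        exact (hd _ (g i).2 _ (g j).2 h2).2.1 hij)
  have h2 : (univ.filter fun h : Equiv.Perm (Fin n) => ∀ i, Paired h ((g i).1.1, (g i).1.2)) =
      univ.filter fun h : Equiv.Perm (Fin n) => ∀ e ∈ S, Paired h e := by
    ext h
    simp only [mem_filter, mem_univ, true_and]
    constructor
    · intro h3 e he
      have := h3 (g.symm ⟨e, he⟩)
      simpa using this
    · intro h3 i
      exact h3 _ (g i).2
  rw [h2, desc_eq] at h1
  have h3 : 0 < 2 ^ S.card * (n / 2).descFactorial S.card :=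
    Nat.mul_pos (by positivity) (Nat.descFactorial_pos.2 (by omega))
  have h4 : (2 ^ S.card * (n / 2).descFactorial S.card) *
      (cnt S * ∏ i ∈ range S.card, (odd' n - 2 * i)) =
      (2 ^ S.card * (n / 2).descFactorial S.card) * n.factorial := by
    rw [← h1]
    unfold cnt
    ring
  exact Nat.eq_of_mul_eq_mul_left h3 h4

theorem cnt_le (hcount : S_count) (S : Finset (Fin n × Fin n)) (hS : ∀ e ∈ S, e.1 < e.2)
    (hn : 2 * S.card ≤ n) :
    cnt S * ∏ i ∈ range S.card, (odd' n - 2 * i) ≤ n.factorial := by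
  by_cases hd : ∀ e ∈ S, ∀ f ∈ S, e ≠ f → Dj e f
  · exact (cnt_eq hcount S hS hd hn).le
  · have h0 : cnt S = 0 := by
      unfold cnt
      rw [card_eq_zero, filter_eq_empty_iff]
      intro h _ hh
      exact hd fun e he f hf hne => dj_of_paired (hS e he) (hS f hf) (hh e he) (hh f hf) hne
    rw [h0, zero_mul]
    exact Nat.zero_le _

/-- the number of elements of `P` whose components are paired -/
def Jn (P : Finset ((Fin n × Fin n) × (Fin n × Fin n))) (h : Equiv.Perm (Fin n)) : ℕ :=
  (P.filter fun ef => Paired h ef.1 ∧ Paired h ef.2).card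

theorem sum_J (P : Finset ((Fin n × Fin n) × (Fin n × Fin n))) :
    ∑ h, Jn P h = ∑ x ∈ P, cnt {x.1, x.2} := by
  unfold Jn
  simp only [card_filter]
  rw [sum_comm]
  refine sum_congr rfl fun x _ => ?_
  unfold cnt
  rw [card_filter]
  refine sum_congr rfl fun h _ => ?_
  simp

theorem sum_J2 (P : Finset ((Fin n × Fin n) × (Fin n × Fin n))) :
    ∑ h, Jn P h ^ 2 = ∑ x ∈ P, ∑ y ∈ P, cnt {x.1, x.2, y.1, y.2} := by
  have h1 : ∀ h, Jn P h ^ 2 = ∑ x ∈ P, ∑ y ∈ P,
      (if (Paired h x.1 ∧ Paired h x.2) ∧ (Paired h y.1 ∧ Paired h y.2) then 1 else 0) := by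
    intro h
    unfold Jn
    rw [card_filter, sq, sum_mul_sum]
    refine sum_congr rfl fun x _ => sum_congr rfl fun y _ => ?_
    split_ifs <;> simp_all
  simp only [h1]
  rw [sum_comm]
  refine sum_congr rfl fun x _ => ?_
  rw [sum_comm]
  refine sum_congr rfl fun y _ => ?_
  unfold cnt
  rw [card_filter]
  refine sum_congr rfl fun h _ => ?_
  simp [and_assoc]

theorem mem_alt {X : Finset (Fin n × Fin n)} {x : (Fin n × Fin n) × (Fin n × Fin n)}
    (hx : x ∈ altPairs X) : x.1 ∈ X ∧ x.2 ∈ X ∧ Alt x.1 x.2 := by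
  unfold altPairs at hx
  simp only [mem_filter, mem_product] at hx
  exact ⟨hx.1.1, hx.1.2, hx.2⟩

theorem alt_ne {e f : Fin n × Fin n} (h : Alt e f) : e ≠ f := by
  intro h1
  rw [h1] at h
  exact lt_irrefl _ h.1

theorem alt_dj {e f : Fin n × Fin n} (h : Alt e f) : Dj e f ∧ Dj f e := by
  obtain ⟨h1, h2, h3⟩ := h
  have h4 : e.1 < e.2 := h1.trans h2
  have h5 : f.1 < f.2 := h2.trans h3
  exact ⟨⟨h1.ne, (h1.trans h5).ne, h2.ne', h3.ne⟩, ⟨h1.ne', h2.ne, (h1.trans h5).ne', h3.ne'⟩⟩

theorem card_fst_le (P : Finset ((Fin n × Fin n) × (Fin n × Fin n))) (a : Fin n × Fin n) :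
    (P.filter fun y => y.1 = a).card ≤ n ^ 2 := by
  have h1 : (P.filter fun y => y.1 = a).card ≤ (univ : Finset (Fin n × Fin n)).card := by
    refine card_le_card_of_injOn (fun y => y.2) (fun _ _ => mem_coe.2 (mem_univ _)) ?_
    intro y hy z hz hyz
    simp only [coe_filter, Set.mem_ofPred_eq] at hy hz
    exact Prod.ext (hy.2.trans hz.2.symm) hyz
  simpa [sq] using h1

theorem card_snd_le (P : Finset ((Fin n × Fin n) × (Fin n × Fin n))) (a : Fin n × Fin n) :
    (P.filter fun y => y.2 = a).card ≤ n ^ 2 := by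
  have h1 : (P.filter fun y => y.2 = a).card ≤ (univ : Finset (Fin n × Fin n)).card := by
    refine card_le_card_of_injOn (fun y => y.1) (fun _ _ => mem_coe.2 (mem_univ _)) ?_
    intro y hy z hz hyz
    simp only [coe_filter, Set.mem_ofPred_eq] at hy hz
    exact Prod.ext hyz (hy.2.trans hz.2.symm)
  simpa [sq] using h1

/-- coincidences between the components -/
def ind (x y : (Fin n × Fin n) × (Fin n × Fin n)) : ℕ :=
  (if y.1 = x.1 then 1 else 0) + (if y.1 = x.2 then 1 else 0) +
    (if y.2 = x.1 then 1 else 0) + (if y.2 = x.2 then 1 else 0)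

theorem sum_ind_le (P : Finset ((Fin n × Fin n) × (Fin n × Fin n)))
    (x : (Fin n × Fin n) × (Fin n × Fin n)) : ∑ y ∈ P, ind x y ≤ 4 * n ^ 2 := by
  unfold ind
  rw [sum_add_distrib, sum_add_distrib, sum_add_distrib, ← card_filter, ← card_filter,
    ← card_filter, ← card_filter]
  have h1 := card_fst_le P x.1
  have h2 := card_fst_le P x.2
  have h3 := card_snd_le P x.1
  have h4 := card_snd_le P x.2
  omega

section
variable (hcount : S_count) (hn : 16 ≤ n)
include hn

theorem odd_ge : 15 ≤ odd' n ∧ n ≤ odd' n + 1 ∧ odd' n ≤ n := by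
  unfold odd'
  omega

/-- the products -/
noncomputable def d2 (n : ℕ) : ℝ := (odd' n : ℝ) * ((odd' n : ℝ) - 2)
/-- the products -/
noncomputable def d3 (n : ℕ) : ℝ := (odd' n : ℝ) * ((odd' n : ℝ) - 2) * ((odd' n : ℝ) - 4)
/-- the products -/
noncomputable def d4 (n : ℕ) : ℝ :=
  (odd' n : ℝ) * ((odd' n : ℝ) - 2) * ((odd' n : ℝ) - 4) * ((odd' n : ℝ) - 6)

theorem prod2 : ((∏ i ∈ range 2, (odd' n - 2 * i) : ℕ) : ℝ) = d2 n := by
  have h := odd_ge hn
  have h2 : 2 ≤ odd' n := by omega
  rw [prod_range_succ, prod_range_succ, prod_range_zero]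
  unfold d2
  push_cast [Nat.cast_sub h2]
  norm_num

theorem prod3 : ((∏ i ∈ range 3, (odd' n - 2 * i) : ℕ) : ℝ) = d3 n := by
  have h := odd_ge hn
  have h2 : 2 ≤ odd' n := by omega
  have h4 : 4 ≤ odd' n := by omega
  rw [prod_range_succ, prod_range_succ, prod_range_succ, prod_range_zero]
  unfold d3
  norm_num [Nat.cast_sub h2, Nat.cast_sub h4]

theorem prod4 : ((∏ i ∈ range 4, (odd' n - 2 * i) : ℕ) : ℝ) = d4 n := by
  have h := odd_ge hn
  have h2 : 2 ≤ odd' n := by omega
  have h4 : 4 ≤ odd' n := by omega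
  have h6 : 6 ≤ odd' n := by omega
  rw [prod_range_succ, prod_range_succ, prod_range_succ, prod_range_succ, prod_range_zero]
  unfold d4
  norm_num [Nat.cast_sub h2, Nat.cast_sub h4, Nat.cast_sub h6]

theorem d_pos : 0 < d2 n ∧ 0 < d3 n ∧ 0 < d4 n := by
  have h : (15 : ℝ) ≤ odd' n := by exact_mod_cast (odd_ge hn).1
  have h0 : (0 : ℝ) < odd' n := by linarith
  have h2 : (0 : ℝ) < odd' n - 2 := by linarith
  have h4 : (0 : ℝ) < odd' n - 4 := by linarith
  have h6 : (0 : ℝ) < odd' n - 6 := by linarith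
  unfold d2 d3 d4
  exact ⟨by positivity, by positivity, by positivity⟩

include hcount

theorem c2 {X : Finset (Fin n × Fin n)} (hX : ∀ e ∈ X, e.1 < e.2)
    {x : (Fin n × Fin n) × (Fin n × Fin n)} (hx : x ∈ altPairs X) :
    (cnt {x.1, x.2} : ℝ) = n.factorial / d2 n := by
  obtain ⟨h1, h2, h3⟩ := mem_alt hx
  have hc : ({x.1, x.2} : Finset (Fin n × Fin n)).card = 2 := card_pair (alt_ne h3)
  have h4 := cnt_eq hcount {x.1, x.2} (by
      intro e he
      simp only [mem_insert, mem_singleton] at he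
      rcases he with rfl | rfl
      · exact hX _ h1
      · exact hX _ h2) (by
      intro e he f hf hef
      simp only [mem_insert, mem_singleton] at he hf
      rcases he with rfl | rfl <;> rcases hf with rfl | rfl
      · exact absurd rfl hef
      · exact (alt_dj h3).1
      · exact (alt_dj h3).2
      · exact absurd rfl hef) (by rw [hc]; omega)
  rw [hc] at h4
  rw [eq_div_iff (d_pos hn).1.ne', ← prod2 hn]
  exact_mod_cast h4

theorem c4 {X : Finset (Fin n × Fin n)} (hX : ∀ e ∈ X, e.1 < e.2)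
    {x y : (Fin n × Fin n) × (Fin n × Fin n)} (hx : x ∈ altPairs X) (hy : y ∈ altPairs X) :
    (cnt {x.1, x.2, y.1, y.2} : ℝ) ≤ n.factorial / d4 n + n.factorial / d3 n * ind x y +
      n.factorial / d2 n * (if x = y then 1 else 0) := by
  obtain ⟨h1, h2, h3⟩ := mem_alt hx
  obtain ⟨g1, g2, g3⟩ := mem_alt hy
  have hS : ∀ e ∈ ({x.1, x.2, y.1, y.2} : Finset (Fin n × Fin n)), e.1 < e.2 := by
    intro e he
    simp only [mem_insert, mem_singleton] at he
    rcases he with rfl | rfl | rfl | rfl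
    · exact hX _ h1
    · exact hX _ h2
    · exact hX _ g1
    · exact hX _ g2
  have hxx := alt_ne h3
  have hyy := alt_ne g3
  have hF : (0 : ℝ) < n.factorial := by exact_mod_cast Nat.factorial_pos n
  obtain ⟨p2, p3, p4⟩ := d_pos hn
  by_cases hxy : x = y
  · subst hxy
    have e1 : ({x.1, x.2, x.1, x.2} : Finset (Fin n × Fin n)) = {x.1, x.2} := by
      ext z
      simp only [mem_insert, mem_singleton]
      tauto
    rw [e1, c2 hcount hn hX hx, if_pos rfl]
    have : 0 ≤ (n.factorial : ℝ) / d3 n * ind x x := by positivity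
    have : 0 ≤ (n.factorial : ℝ) / d4 n := by positivity
    linarith
  · rw [if_neg hxy, mul_zero, add_zero]
    -- general bound
    have key : ∀ j : ℕ, j ≤ 8 → ({x.1, x.2, y.1, y.2} : Finset (Fin n × Fin n)).card = j →
        ((cnt {x.1, x.2, y.1, y.2} * ∏ i ∈ range j, (odd' n - 2 * i) : ℕ) : ℝ) ≤ n.factorial := by
      intro j hj8 hj
      have := cnt_le hcount _ hS (by rw [hj]; omega)
      rw [hj] at this
      exact_mod_cast this
    by_cases hi : y.1 = x.1 ∨ y.1 = x.2 ∨ y.2 = x.1 ∨ y.2 = x.2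
    · have hi1 : (1 : ℝ) ≤ ind x y := by
        have : 1 ≤ ind x y := by
          unfold ind
          rcases hi with h | h | h | h
          · rw [if_pos h]; omega
          · rw [if_pos h]; omega
          · rw [if_pos h]; omega
          · rw [if_pos h]; omega
        exact_mod_cast this
      have hc : ({x.1, x.2, y.1, y.2} : Finset (Fin n × Fin n)).card = 3 := by
        rcases hi with h | h | h | h
        · have n1 : y.2 ≠ x.2 := fun h' => hxy (Prod.ext h.symm h'.symm)
          have n2 : y.2 ≠ x.1 := fun h' => hyy (h.trans h'.symm)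
          rw [show ({x.1, x.2, y.1, y.2} : Finset (Fin n × Fin n)) = {x.1, x.2, y.2} by
            ext z; simp only [mem_insert, mem_singleton, h]; tauto]
          rw [card_insert_of_notMem (by simp [hxx, n2.symm]), card_pair n1.symm]
        · have n1 : y.2 ≠ x.2 := fun h' => hyy (h.trans h'.symm)
          have n2 : y.2 ≠ x.1 := by
            intro h'
            have a1 := g3.1
            have a2 := h3.1
            rw [h, h'] at a1
            exact lt_asymm a1 a2
          rw [show ({x.1, x.2, y.1, y.2} : Finset (Fin n × Fin n)) = {x.1, x.2, y.2} by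
            ext z; simp only [mem_insert, mem_singleton, h]; tauto]
          rw [card_insert_of_notMem (by simp [hxx, n2.symm]), card_pair n1.symm]
        · have n1 : y.1 ≠ x.1 := fun h' => hyy (h'.trans h.symm)
          have n2 : y.1 ≠ x.2 := by
            intro h'
            have a1 := g3.1
            have a2 := h3.1
            rw [h, h'] at a1
            exact lt_asymm a1 a2
          rw [show ({x.1, x.2, y.1, y.2} : Finset (Fin n × Fin n)) = {x.1, x.2, y.1} by
            ext z; simp only [mem_insert, mem_singleton, h]; tauto]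
          rw [card_insert_of_notMem (by simp [hxx, n1.symm]), card_pair n2.symm]
        · have n1 : y.1 ≠ x.2 := fun h' => hyy (h'.trans h.symm)
          have n2 : y.1 ≠ x.1 := fun h' => hxy (Prod.ext h'.symm h.symm)
          rw [show ({x.1, x.2, y.1, y.2} : Finset (Fin n × Fin n)) = {x.1, x.2, y.1} by
            ext z; simp only [mem_insert, mem_singleton, h]; tauto]
          rw [card_insert_of_notMem (by simp [hxx, n2.symm]), card_pair n1.symm]
      have h5 := key 3 (by norm_num) hc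
      rw [Nat.cast_mul, prod3 hn, ← le_div_iff₀ p3] at h5
      have h6 : (n.factorial : ℝ) / d3 n * 1 ≤ n.factorial / d3 n * ind x y := by gcongr
      have : 0 ≤ (n.factorial : ℝ) / d4 n := by positivity
      linarith
    · push Not at hi
      obtain ⟨i1, i2, i3, i4⟩ := hi
      have hc : ({x.1, x.2, y.1, y.2} : Finset (Fin n × Fin n)).card = 4 := by
        rw [card_insert_of_notMem (by simp [hxx, i1.symm, i3.symm]),
          card_insert_of_notMem (by simp [i2.symm, i4.symm]), card_pair hyy]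
      have h5 := key 4 (by norm_num) hc
      rw [Nat.cast_mul, prod4 hn, ← le_div_iff₀ p4] at h5
      have : 0 ≤ (n.factorial : ℝ) / d3 n * ind x y := by positivity
      linarith

theorem sum1 {X : Finset (Fin n × Fin n)} (hX : ∀ e ∈ X, e.1 < e.2) :
    ∑ h, (Jn (altPairs X) h : ℝ) = (altPairs X).card * (n.factorial / d2 n) := by
  have h1 := congrArg (fun z : ℕ => (z : ℝ)) (sum_J (altPairs X))
  simp only [Nat.cast_sum] at h1
  rw [h1, sum_congr rfl fun x hx => c2 hcount hn hX hx, sum_const, nsmul_eq_mul]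

theorem sum2 {X : Finset (Fin n × Fin n)} (hX : ∀ e ∈ X, e.1 < e.2) :
    ∑ h, (Jn (altPairs X) h : ℝ) ^ 2 ≤
      (altPairs X).card * ((altPairs X).card * (n.factorial / d4 n) +
        n.factorial / d3 n * (4 * n ^ 2) + n.factorial / d2 n) := by
  have h1 := congrArg (fun z : ℕ => (z : ℝ)) (sum_J2 (altPairs X))
  simp only [Nat.cast_sum, Nat.cast_pow] at h1
  rw [h1]
  obtain ⟨p2, p3, p4⟩ := d_pos hn
  have h2 : ∀ x ∈ altPairs X, ∑ y ∈ altPairs X, (cnt {x.1, x.2, y.1, y.2} : ℝ) ≤
      (altPairs X).card * (n.factorial / d4 n) +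
        n.factorial / d3 n * (4 * n ^ 2) + n.factorial / d2 n := by
    intro x hx
    refine (sum_le_sum fun y hy => c4 hcount hn hX hx hy).trans ?_
    rw [sum_add_distrib, sum_add_distrib, sum_const, nsmul_eq_mul, ← mul_sum, ← mul_sum]
    have h3 : (∑ y ∈ altPairs X, (ind x y : ℝ)) ≤ 4 * (n : ℝ) ^ 2 := by
      have := sum_ind_le (altPairs X) x
      exact_mod_cast this
    have h4 : (∑ y ∈ altPairs X, (if x = y then (1 : ℝ) else 0)) = 1 := by
      rw [sum_ite_eq]
      rw [if_pos hx]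
    rw [h4, mul_one]
    gcongr
  refine (sum_le_sum h2).trans ?_
  rw [sum_const, nsmul_eq_mul]

theorem variance {X : Finset (Fin n × Fin n)} (hX : ∀ e ∈ X, e.1 < e.2) :
    ∑ h, ((Jn (altPairs X) h : ℝ) - (altPairs X).card / d2 n) ^ 2 ≤
      (altPairs X).card * ((altPairs X).card * (n.factorial / d4 n) +
        n.factorial / d3 n * (4 * n ^ 2) + n.factorial / d2 n) -
      n.factorial * ((altPairs X).card / d2 n) ^ 2 := by
  have h1 := sum1 hcount hn hX
  have h2 := sum2 hcount hn hX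
  set I : ℝ := ((altPairs X).card : ℝ)
  have h3 : ∀ h, ((Jn (altPairs X) h : ℝ) - I / d2 n) ^ 2 =
      (Jn (altPairs X) h : ℝ) ^ 2 - 2 * (I / d2 n) * (Jn (altPairs X) h : ℝ) + (I / d2 n) ^ 2 := by
    intro h
    ring
  simp only [h3]
  rw [sum_add_distrib, sum_sub_distrib, ← mul_sum, h1, sum_const, nsmul_eq_mul]
  have h4 : ((univ : Finset (Equiv.Perm (Fin n))).card : ℝ) = n.factorial := by
    rw [card_univ, Fintype.card_perm, Fintype.card_fin]
  rw [h4]
  have h5 : 2 * (I / d2 n) * (I * (n.factorial / d2 n)) = 2 * (n.factorial * (I / d2 n) ^ 2) := by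
    ring
  rw [h5]
  linarith

set_option maxHeartbeats 4000000 in
theorem main {X : Finset (Fin n × Fin n)} (hX : ∀ e ∈ X, e.1 < e.2) :
    ((univ.filter fun h => 4 * n ^ 2 * Jn (altPairs X) h < (altPairs X).card).card : ℝ) *
      (altPairs X).card ≤ 100 * n ^ 3 * n.factorial := by
  have hv := variance hcount hn hX
  obtain ⟨p2, p3, p4⟩ := d_pos hn
  obtain ⟨o1, o2, o3⟩ := odd_ge hn
  set B := univ.filter fun h => 4 * n ^ 2 * Jn (altPairs X) h < (altPairs X).card with hB
  have hF : (0 : ℝ) < n.factorial := by exact_mod_cast Nat.factorial_pos n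
  have hn16 : (16 : ℝ) ≤ n := by exact_mod_cast hn
  have hk1 : (15 : ℝ) ≤ odd' n := by exact_mod_cast o1
  have hk2 : (n : ℝ) ≤ odd' n + 1 := by exact_mod_cast o2
  have hk3 : (odd' n : ℝ) ≤ n := by exact_mod_cast o3
  have hI4 : ((altPairs X).card : ℝ) ≤ (n : ℝ) ^ 4 := by
    have h1 : (altPairs X).card ≤ n ^ 4 := by
      refine (card_le_univ _).trans ?_
      rw [Fintype.card_prod, Fintype.card_prod, Fintype.card_fin]
      exact le_of_eq (by ring)
    exact_mod_cast h1
  have hd2n : d2 n ≤ (n : ℝ) ^ 2 := by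
    unfold d2
    nlinarith
  rcases Nat.eq_zero_or_pos (altPairs X).card with h0 | h0
  · rw [h0, Nat.cast_zero, mul_zero]
    positivity
  have hIpos : (0 : ℝ) < (altPairs X).card := by exact_mod_cast h0
  set I : ℝ := ((altPairs X).card : ℝ) with hI
  -- lower bound
  have hlow : (B.card : ℝ) * (9 / 16 * (I / d2 n) ^ 2) ≤
      ∑ h, ((Jn (altPairs X) h : ℝ) - I / d2 n) ^ 2 := by
    rw [← nsmul_eq_mul, ← sum_const]
    refine (sum_le_sum (g := fun h => ((Jn (altPairs X) h : ℝ) - I / d2 n) ^ 2) ?_).trans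
      (sum_le_sum_of_subset_of_nonneg (subset_univ B) fun _ _ _ => sq_nonneg _)
    intro h hh
    rw [hB, mem_filter] at hh
    have h1 : 4 * (n : ℝ) ^ 2 * Jn (altPairs X) h < I := by
      rw [hI]
      exact_mod_cast hh.2
    have h2 : (0 : ℝ) ≤ Jn (altPairs X) h := Nat.cast_nonneg _
    have h3 : (Jn (altPairs X) h : ℝ) ≤ I / d2 n / 4 := by
      rw [div_div, le_div_iff₀ (by positivity)]
      nlinarith
    have h4 : 0 < I / d2 n := by positivity
    nlinarith
  have h1 := hlow.trans hv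
  -- multiply by d2 ^ 2 / I
  have h2 : (B.card : ℝ) * I * (9 / 16) ≤ n.factorial * (I * (d2 n ^ 2 / d4 n - 1) +
      4 * n ^ 2 * (d2 n ^ 2 / d3 n) + d2 n) := by
    have h3 : 0 < d2 n ^ 2 / I := by positivity
    have h4 := mul_le_mul_of_nonneg_right h1 h3.le
    have e1 : (B.card : ℝ) * (9 / 16 * (I / d2 n) ^ 2) * (d2 n ^ 2 / I) =
        (B.card : ℝ) * I * (9 / 16) := by
      field_simp
    have e2 : (I * (I * (n.factorial / d4 n) + n.factorial / d3 n * (4 * n ^ 2) +
        n.factorial / d2 n) - n.factorial * (I / d2 n) ^ 2) * (d2 n ^ 2 / I) =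
        n.factorial * (I * (d2 n ^ 2 / d4 n - 1) +
      4 * n ^ 2 * (d2 n ^ 2 / d3 n) + d2 n) := by
      field_simp
      ring
    rw [e1, e2] at h4
    exact h4
  have hk4 : (0 : ℝ) < odd' n - 4 := by linarith
  have hk6 : (0 : ℝ) < odd' n - 6 := by linarith
  have b1 : d2 n ^ 2 / d4 n - 1 ≤ 32 / n := by
    have e1 : d2 n ^ 2 / d4 n = d2 n / (((odd' n : ℝ) - 4) * ((odd' n : ℝ) - 6)) := by
      have e2 : d4 n = d2 n * (((odd' n : ℝ) - 4) * ((odd' n : ℝ) - 6)) := by
        unfold d2 d4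
        ring
      rw [e2]
      field_simp
    rw [e1, sub_le_iff_le_add, div_le_iff₀ (by positivity)]
    have h5 : (8 * (odd' n : ℝ) - 24) ≤ 32 / n * (((odd' n : ℝ) - 4) * ((odd' n : ℝ) - 6)) := by
      rw [div_mul_eq_mul_div, le_div_iff₀ (by linarith)]
      nlinarith
    unfold d2
    nlinarith
  have b2 : d2 n ^ 2 / d3 n ≤ 2 * n := by
    have e1 : d2 n ^ 2 / d3 n = d2 n / ((odd' n : ℝ) - 4) := by
      have e2 : d3 n = d2 n * ((odd' n : ℝ) - 4) := by
        unfold d2 d3
        ring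
      rw [e2]
      field_simp
    rw [e1, div_le_iff₀ hk4]
    unfold d2
    nlinarith
  have b3 : I * (d2 n ^ 2 / d4 n - 1) ≤ 32 * (n : ℝ) ^ 3 := by
    calc I * (d2 n ^ 2 / d4 n - 1) ≤ I * (32 / n) := by gcongr
      _ ≤ (n : ℝ) ^ 4 * (32 / n) := by gcongr
      _ = 32 * (n : ℝ) ^ 3 := by
        field_simp
  have b4 : 4 * (n : ℝ) ^ 2 * (d2 n ^ 2 / d3 n) ≤ 8 * (n : ℝ) ^ 3 := by
    calc 4 * (n : ℝ) ^ 2 * (d2 n ^ 2 / d3 n) ≤ 4 * (n : ℝ) ^ 2 * (2 * n) := by gcongr
      _ = 8 * (n : ℝ) ^ 3 := by ring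
  have b5 : d2 n ≤ (n : ℝ) ^ 3 := by nlinarith
  have h6 : (B.card : ℝ) * I * (9 / 16) ≤ n.factorial * (41 * (n : ℝ) ^ 3) := by
    refine h2.trans ?_
    gcongr
    linarith
  nlinarith [pow_pos (show (0 : ℝ) < n by linarith) 3]

end

end VarAux

/-- RS-VAR -/
theorem var (hcount : S_count) : S_var := by
  refine ⟨100, fun n X hX => ?_⟩
  rcases Nat.lt_or_ge n 16 with hn | hn
  · have h1 : (altPairs X).card ≤ n ^ 4 := by
      refine (card_le_univ _).trans ?_
      rw [Fintype.card_prod, Fintype.card_prod, Fintype.card_fin]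
      exact le_of_eq (by ring)
    have h2 : (univ.filter fun h : Equiv.Perm (Fin n) =>
        4 * n ^ 2 * ((altPairs X).filter fun ef => Paired h ef.1 ∧ Paired h ef.2).card <
        (altPairs X).card).card ≤ n.factorial := by
      refine (card_le_univ _).trans ?_
      rw [Fintype.card_perm, Fintype.card_fin]
    refine (Nat.mul_le_mul h2 h1).trans ?_
    have h3 : n.factorial * n ^ 4 = n * n ^ 3 * n.factorial := by ring
    rw [h3]
    gcongr
    omega
  · have := VarAux.main hcount hn hX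
    unfold VarAux.Jn at this
    exact_mod_cast this

end Pool.Agent.W642.RS
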