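import Pool.Agent.W642.RS.Slot
import Pool.Agent.W642.RS.Var
import Pool.Agent.W803.RS.Count
import Pool.Agent.W64.RS.Cross
import Pool.Agent.W688.RS.Match

set_option autoImplicit false

/-! The assembly for stacks. -/

namespace Pool.Agent.W642.RS

open Finset Function Pool.Agent.H832R2.JR LaurentPolynomial

variable {N n : ℕ}

/-- the two arcs of a crossing -/
def ed (D : Stack N n) (c : Fin N) : Fin n × Fin n :=
  (min (D.arc (c, false)) (D.arc (c, true)), max (D.arc (c, false)) (D.arc (c, true)))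

theorem ed_lt (D : Stack N n) (c : Fin N) : (ed D c).1 < (ed D c).2 := by
  unfold ed
  exact min_lt_max.2 (D.ne c)

theorem ed_cases (D : Stack N n) (c : Fin N) : ∃ b : Bool,
    D.arc (c, b) = (ed D c).1 ∧ D.arc (c, !b) = (ed D c).2 := by
  unfold ed
  rcases le_total (D.arc (c, false)) (D.arc (c, true)) with h | h
  · exact ⟨false, (min_eq_left h).symm, (max_eq_right h).symm⟩
  · exact ⟨true, (min_eq_right h).symm, (max_eq_left h).symm⟩

theorem ed_sym (D : Stack N n) (c : Fin N) :
    s(D.arc (c, false), D.arc (c, true)) = s((ed D c).1, (ed D c).2) := by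
  obtain ⟨b, h1, h2⟩ := ed_cases D c
  cases b
  · rw [← h1, ← h2]; rfl
  · rw [← h1, ← h2]; exact Sym2.eq_swap

theorem ed_inj (D : Stack N n) : Injective (ed D) := by
  intro c d h
  apply D.once
  rw [ed_sym, ed_sym, h]

/-- the pairs of arcs which cross -/
def XX (D : Stack N n) : Finset (Fin n × Fin n) := univ.image (ed D)

theorem XX_lt (D : Stack N n) : ∀ e ∈ XX D, e.1 < e.2 := by
  intro e he
  unfold XX at he
  rw [mem_image] at he
  obtain ⟨c, _, rfl⟩ := he
  exact ed_lt D c

theorem XX_card (D : Stack N n) : (XX D).card = N := by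
  unfold XX
  rw [card_image_of_injective _ (ed_inj D), card_univ, Fintype.card_fin]

theorem G_lt (D : Stack N n) {x y : Fin N × Bool} (h : D.arc x < D.arc y) :
    (D.G x : ℕ) < D.G y := by
  by_contra h1
  rw [not_lt] at h1
  exact absurd (D.mono y x h1) (not_le.2 h)

theorem crosses_of_alt (D : Stack N n) (c d : Fin N) (h : Alt (ed D c) (ed D d)) :
    Crosses D.G c d := by
  obtain ⟨h1, h2, h3⟩ := h
  obtain ⟨b, hb1, hb2⟩ := ed_cases D c
  obtain ⟨b', hb1', hb2'⟩ := ed_cases D d
  rw [← hb1, ← hb1'] at h1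
  rw [← hb1', ← hb2] at h2
  rw [← hb2, ← hb2'] at h3
  have g1 := G_lt D h1
  have g2 := G_lt D h2
  have g3 := G_lt D h3
  unfold Crosses Pool.Agent.H832R2.JR.Btw
  cases b <;> cases b' <;> simp only [Bool.not_false, Bool.not_true] at g1 g2 g3 <;> omega

theorem paired_ed (D : Stack N n) (h : Equiv.Perm (Fin n)) (c : Fin N) :
    Paired h (ed D c) ↔ (h (D.arc (c, false)) : ℕ) / 2 = (h (D.arc (c, true)) : ℕ) / 2 := by
  unfold Paired
  obtain ⟨b, hb1, hb2⟩ := ed_cases D c
  rw [← hb1, ← hb2]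
  cases b
  · rfl
  · exact eq_comm

open Classical in
/-- for a fixed placement, exchanging neighbouring heights gives the bracket `F` rarely -/
theorem good_bound (D : Stack N n) (F : ℤ[T;T⁻¹]) (h : Equiv.Perm (Fin n)) :
    ((altPairs (XX D)).filter fun ef => Paired h ef.1 ∧ Paired h ef.2).card *
      (univ.filter fun ε : Fin (n / 2) → Bool => D.f (tau ε * h) = F).card ^ 4 ≤
      2048 * (n + 1) * (2 ^ (n / 2)) ^ 4 := by
  set J := (altPairs (XX D)).filter fun ef => Paired h ef.1 ∧ Paired h ef.2 with hJ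
  rcases Nat.eq_zero_or_pos J.card with h0 | h0
  · rw [h0]; simp
  have hN : 0 < N := by
    obtain ⟨x, hx⟩ := card_pos.1 h0
    rw [hJ, mem_filter] at hx
    unfold altPairs at hx
    rw [mem_filter, mem_product] at hx
    have := hx.1.1.1
    unfold XX at this
    rw [mem_image] at this
    obtain ⟨c, _⟩ := this
    exact lt_of_le_of_lt (Nat.zero_le _) c.2
  obtain ⟨K, hK⟩ := second_moment D.G ⟨0, hN⟩
  -- the matching
  set E : Finset (Fin (n / 2 + 1) × Fin (n / 2 + 1)) :=
    univ.filter fun kl => kl.1 ≠ kl.2 ∧ AA D h kl.1 kl.2 ≠ 0 with hE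
  have hJE : J.card ≤ E.card := by
    let g : (Fin n × Fin n) × (Fin n × Fin n) → Fin (n / 2 + 1) × Fin (n / 2 + 1) := fun ef =>
      (Fin.ofNat (n / 2 + 1) ((h ef.1.1 : ℕ) / 2 + 1), Fin.ofNat (n / 2 + 1) ((h ef.2.1 : ℕ) / 2 + 1))
    have hslot : ∀ c, Paired h (ed D c) →
        slot D h c = Fin.ofNat (n / 2 + 1) ((h (ed D c).1 : ℕ) / 2 + 1) := by
      intro c hc
      have hc' := (paired_ed D h c).1 hc
      have h1 : (h (D.arc (c, false)) : ℕ) ≠ h (D.arc (c, true)) :=
        fun h2 => D.ne c (h.injective (Fin.ext h2))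
      have h3 := (h (D.arc (c, false))).2
      have h4 := (h (D.arc (c, true))).2
      have h5 : (h (ed D c).1 : ℕ) / 2 = (h (D.arc (c, false)) : ℕ) / 2 := by
        obtain ⟨b, hb1, hb2⟩ := ed_cases D c
        rw [← hb1]
        cases b
        · rfl
        · exact hc'.symm
      apply Fin.ext
      unfold slot
      rw [dif_pos hc', Fin.val_ofNat, h5, Nat.mod_eq_of_lt (by omega)]
    refine card_le_card_of_injOn g ?_ ?_
    · intro x hx
      rw [mem_coe, hJ, mem_filter] at hx
      unfold altPairs at hx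
      rw [mem_filter, mem_product] at hx
      obtain ⟨⟨⟨hx1, hx2⟩, halt⟩, hp1, hp2⟩ := hx
      unfold XX at hx1 hx2
      rw [mem_image] at hx1 hx2
      obtain ⟨c, _, hc⟩ := hx1
      obtain ⟨d, _, hd⟩ := hx2
      rw [mem_coe, hE, mem_filter]
      have e1 : g x = (slot D h c, slot D h d) := by
        simp only [g]
        rw [hslot c (hc ▸ hp1), hslot d (hd ▸ hp2), hc, hd]
      rw [e1]
      refine ⟨mem_univ _, ?_, ?_⟩
      · intro hs
        have := slot_inj D h d c ((paired_ed D h d).1 (hd ▸ hp2)) hs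
        rw [this] at hc
        rw [← hc, ← hd] at halt
        exact absurd halt.1 (lt_irrefl _)
      · exact AA_entry D h c d ((paired_ed D h c).1 (hc ▸ hp1)) ((paired_ed D h d).1 (hd ▸ hp2))
          (crosses_of_alt D c d (by rw [hc, hd]; exact halt))
    · intro x hx y hy hxy
      rw [mem_coe, hJ, mem_filter] at hx hy
      unfold altPairs at hx hy
      rw [mem_filter, mem_product] at hx hy
      obtain ⟨⟨⟨hx1, hx2⟩, _⟩, hp1, hp2⟩ := hx
      obtain ⟨⟨⟨hy1, hy2⟩, _⟩, hq1, hq2⟩ := hy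
      unfold XX at hx1 hx2 hy1 hy2
      rw [mem_image] at hx1 hx2 hy1 hy2
      obtain ⟨c, _, hc⟩ := hx1
      obtain ⟨d, _, hd⟩ := hx2
      obtain ⟨c', _, hc'⟩ := hy1
      obtain ⟨d', _, hd'⟩ := hy2
      simp only [g, Prod.mk.injEq] at hxy
      rw [← hc, ← hc', ← hd, ← hd'] at hxy
      rw [← hc] at hp1
      rw [← hd] at hp2
      rw [← hc'] at hq1
      rw [← hd'] at hq2
      rw [← hslot c hp1, ← hslot d hp2, ← hslot c' hq1, ← hslot d' hq2] at hxy
      have e1 := slot_inj D h c' c ((paired_ed D h c').1 hq1) hxy.1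
      have e2 := slot_inj D h d' d ((paired_ed D h d').1 hq2) hxy.2
      apply Prod.ext
      · rw [← hc, ← hc', e1]
      · rw [← hd, ← hd', e2]
  obtain ⟨m, u, v, huv, hmem, hcard⟩ := Pool.Agent.W688.RS.mtch (n / 2 + 1) E (fun e he => by
    rw [hE, mem_filter] at he; exact he.2.1)
  have hAne : ∀ k, AA D h (u k) (v k) ≠ 0 := by
    intro k
    have := hmem k
    rw [hE, mem_filter] at this
    exact this.2.2
  -- the quadratic form
  set t : ℤ := (K - rho F 0 2) / 12 with ht
  have h1 := qlo (n / 2 + 1) m (AA D h) (AA_symm D h) u v huv hAne t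
  have h2 : (univ.filter fun ε : Fin (n / 2) → Bool => D.f (tau ε * h) = F).card ≤
      (univ.filter fun σ : Fin (n / 2 + 1) → Bool => Q (AA D h) σ = t).card := by
    refine card_le_card_of_injOn
      (fun ε => (Fin.cons true (fun k => !ε k) : Fin (n / 2 + 1) → Bool)) ?_ ?_
    · intro ε hε
      rw [mem_coe, mem_filter] at hε ⊢
      refine ⟨mem_univ _, ?_⟩
      have e1 := hK (wsig D h (Fin.cons true (fun k => !ε k)))
      rw [Q_AA, wsig_cons] at e1
      have e2 : fPoly D.G (D.signs (tau ε * h)) = F := hε.2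
      rw [e2] at e1
      show Q (AA D h) (Fin.cons true fun k => !ε k) = t
      omega
    · intro ε _ ε' _ hεε
      funext k
      have h5 : (Fin.cons true (fun k => !ε k) : Fin (n / 2 + 1) → Bool) k.succ =
        (Fin.cons true (fun k => !ε' k) : Fin (n / 2 + 1) → Bool) k.succ := congrFun hεε k.succ
      rw [Fin.cons_succ, Fin.cons_succ] at h5
      simpa using h5
  set a := (univ.filter fun ε : Fin (n / 2) → Bool => D.f (tau ε * h) = F).card with ha
  have h3 : m * a ^ 4 ≤ 512 * (2 ^ (n / 2)) ^ 4 := by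
    calc m * a ^ 4 ≤ m * (univ.filter fun σ : Fin (n / 2 + 1) → Bool =>
          Q (AA D h) σ = t).card ^ 4 := by gcongr
      _ ≤ 32 * (2 ^ (n / 2 + 1)) ^ 4 := h1
      _ = 512 * (2 ^ (n / 2)) ^ 4 := by
          rw [show (2 : ℕ) ^ (n / 2 + 1) = 2 ^ (n / 2) * 2 from pow_succ _ _, mul_pow]; ring
  calc J.card * a ^ 4 ≤ (4 * m * (n / 2 + 1)) * a ^ 4 := by
        gcongr
        exact hJE.trans hcard
    _ = 4 * (n / 2 + 1) * (m * a ^ 4) := by ring
    _ ≤ 4 * (n + 1) * (512 * (2 ^ (n / 2)) ^ 4) := by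
        gcongr
        exact Nat.div_le_self n 2
    _ = _ := by ring

end Pool.Agent.W642.RS
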