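import Pool.Agent.W642.RS.Few

set_option autoImplicit false

/-! The quadratic Littlewood–Offord inequality with exponent `1/4`. -/

namespace Pool.Agent.W642.RS

open Finset Function Pool.Agent.H832R2.JR

theorem qlo : S_qlo := by
  classical
  intro N m A hA u v huv hd c
  rcases Nat.eq_zero_or_pos m with rfl | hm
  · simp
  have hu : Injective u := fun a b h => Sum.inl_injective (huv (by simpa using h))
  have hv : Injective v := fun a b h => Sum.inr_injective (huv (by simpa using h))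
  have hne : ∀ k l, u k ≠ v l := fun k l h => by
    have := huv (a₁ := Sum.inl k) (a₂ := Sum.inr l) (by simpa using h)
    exact absurd this (by simp)
  set M : Fin m → Fin N → ℤ := fun k j => if ∃ l, u l = j then 0 else A (u k) j with hM
  have hMd : ∀ k, M k (v k) ≠ 0 := by
    intro k
    simp only [hM]
    rw [if_neg (by rintro ⟨l, hl⟩; exact hne l k hl)]
    exact hd k
  have hcoef : ∀ (p : WW N) k, coef A u p.1 p.2 k = LL M k p := by
    intro p k
    unfold coef LL
    refine sum_congr rfl fun j _ => ?_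
    simp only [hM]
    split_ifs <;> ring
  set s : ℕ := (m + 7) / 8 with hs
  have hs0 : 0 < s := by omega
  have h1 := decouple_LO A hA u hu c s hs0
  have h2 : (univ.filter fun p : (Fin N → Bool) × (Fin N → Bool) =>
        (univ.filter fun k => coef A u p.1 p.2 k ≠ 0).card < s) =
        univ.filter fun q : WW N => Bad M q := by
    ext p
    simp only [mem_filter, mem_univ, true_and]
    unfold Bad
    have h3 : (univ.filter fun k => coef A u p.1 p.2 k ≠ 0) =
        univ.filter fun k => LL M k p ≠ 0 := by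
      ext k
      simp only [mem_filter, mem_univ, true_and, hcoef]
    rw [h3]
    omega
  rw [h2] at h1
  set P : ℝ := ((univ.filter fun w => Q A w = c).card : ℝ) with hP
  have h4 := few M v hv hMd
  have hm' : (0 : ℝ) < m := by exact_mod_cast hm
  have hs' : (0 : ℝ) < s := by exact_mod_cast hs0
  have h5 : √(m : ℝ) ≤ √8 * √(s : ℝ) := by
    rw [← Real.sqrt_mul (by norm_num)]
    apply Real.sqrt_le_sqrt
    have : m ≤ 8 * s := by omega
    exact_mod_cast this
  have h6 : √(m : ℝ) * (4 ^ N / √(s : ℝ)) ≤ √8 * 4 ^ N := by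
    rw [mul_div_assoc', div_le_iff₀ (Real.sqrt_pos.2 hs')]
    calc √(m : ℝ) * 4 ^ N ≤ (√8 * √(s : ℝ)) * 4 ^ N := by gcongr
      _ = _ := by ring
  have h7 : √(m : ℝ) * P ^ 2 ≤ 2 * √8 * 4 ^ N := by
    calc √(m : ℝ) * P ^ 2 ≤ √(m : ℝ) * (4 ^ N / √(s : ℝ) +
          ((univ.filter fun q : WW N => Bad M q).card : ℝ)) := by gcongr
      _ = √(m : ℝ) * (4 ^ N / √(s : ℝ)) +
          √(m : ℝ) * ((univ.filter fun q : WW N => Bad M q).card : ℝ) := by ring
      _ ≤ √8 * 4 ^ N + √8 * 4 ^ N := add_le_add h6 h4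
      _ = _ := by ring
  have h8 : (√(m : ℝ) * P ^ 2) ^ 2 ≤ (2 * √8 * 4 ^ N) ^ 2 :=
    pow_le_pow_left₀ (by positivity) h7 2
  have h9 : (m : ℝ) * P ^ 4 ≤ 32 * (2 ^ N) ^ 4 := by
    calc (m : ℝ) * P ^ 4 = (√(m : ℝ) * P ^ 2) ^ 2 := by
          rw [mul_pow, Real.sq_sqrt hm'.le]; ring
      _ ≤ (2 * √8 * 4 ^ N) ^ 2 := h8
      _ = 32 * (2 ^ N) ^ 4 := by
          rw [mul_pow, mul_pow, Real.sq_sqrt (by norm_num)]
          rw [show (4 : ℝ) = 2 ^ 2 by norm_num, ← pow_mul, ← pow_mul, ← pow_mul]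
          rw [show 2 * (N * 2) = N * 4 by ring]
          norm_num
  rw [hP] at h9
  exact_mod_cast h9

end Pool.Agent.W642.RS
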