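import Pool.Agent.W642.RS.Qlo
import Pool.Agent.H832R2.JR.Moment

set_option autoImplicit false

/-! Exchanging the heights `2 k` and `2 k + 1`. -/

namespace Pool.Agent.W642.RS

open Finset Function Pool.Agent.H832R2.JR LaurentPolynomial

variable {N n : ℕ}

/-- the other place of the slot -/
def pn (a : ℕ) : ℕ := if a % 2 = 0 then a + 1 else a - 1

theorem pn_div (a : ℕ) : pn a / 2 = a / 2 := by
  unfold pn; split_ifs <;> omega

theorem pn_pn (a : ℕ) : pn (pn a) = a := by
  unfold pn; split_ifs <;> omega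

/-- is the slot of `a` exchanged? -/
def ev (ε : Fin (n / 2) → Bool) (a : ℕ) : Bool := if h : a / 2 < n / 2 then ε ⟨a / 2, h⟩ else false

theorem ev_congr (ε : Fin (n / 2) → Bool) (a b : ℕ) (h : a / 2 = b / 2) : ev ε a = ev ε b := by
  unfold ev
  simp only [h]

theorem pn_lt (ε : Fin (n / 2) → Bool) (a : ℕ) (ha : a < n) (h : ev ε a = true) : pn a < n := by
  unfold ev at h
  split_ifs at h with h1
  unfold pn; split_ifs <;> omega

/-- exchange the places in the slots with `ε k = true` -/
def tauFun (ε : Fin (n / 2) → Bool) (a : Fin n) : Fin n :=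
  if h : ev ε (a : ℕ) = true then ⟨pn a, pn_lt ε a a.2 h⟩ else a

theorem tauFun_val (ε : Fin (n / 2) → Bool) (a : Fin n) :
    (tauFun ε a : ℕ) = if ev ε (a : ℕ) = true then pn a else a := by
  unfold tauFun
  split_ifs <;> rfl

theorem tauFun_inv (ε : Fin (n / 2) → Bool) : Involutive (tauFun ε) := by
  intro a
  apply Fin.ext
  rw [tauFun_val, tauFun_val]
  by_cases h : ev ε (a : ℕ) = true
  · rw [if_pos h, ev_congr ε (pn a) a (pn_div a), if_pos h, pn_pn]
  · rw [if_neg h, if_neg h]

/-- the permutation exchanging the places in the slots with `ε k = true` -/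
def tau (ε : Fin (n / 2) → Bool) : Equiv.Perm (Fin n) := (tauFun_inv ε).toPerm

theorem tau_val (ε : Fin (n / 2) → Bool) (a : Fin n) :
    (tau ε a : ℕ) = if ev ε (a : ℕ) = true then pn a else a := tauFun_val ε a

theorem tau_lt (ε : Fin (n / 2) → Bool) (a b : Fin n) (hab : a ≠ b) :
    decide (tau ε a < tau ε b) =
      if (a : ℕ) / 2 = (b : ℕ) / 2 then xor (decide (a < b)) (ev ε a) else decide (a < b) := by
  have hab' : (a : ℕ) ≠ b := fun h => hab (Fin.ext h)
  by_cases h : (a : ℕ) / 2 = (b : ℕ) / 2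
  · rw [if_pos h]
    have h1 := ev_congr ε a b h
    by_cases h2 : ev ε (a : ℕ) = true
    · rw [h2, Bool.xor_true, ← decide_not]
      apply decide_eq_decide.2
      rw [Fin.lt_def, Fin.lt_def, tau_val, tau_val, if_pos h2, if_pos (h1 ▸ h2)]
      unfold pn
      split_ifs <;> omega
    · rw [Bool.not_eq_true] at h2
      rw [h2, Bool.xor_false]
      apply decide_eq_decide.2
      rw [Fin.lt_def, Fin.lt_def, tau_val, tau_val, if_neg (by rw [h2]; simp),
        if_neg (by rw [← h1, h2]; simp)]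
  · rw [if_neg h]
    apply decide_eq_decide.2
    rw [Fin.lt_def, Fin.lt_def, tau_val, tau_val]
    have h3 : ∀ c : ℕ, (if ev ε c = true then pn c else c) / 2 = c / 2 := by
      intro c; split_ifs
      · exact pn_div c
      · rfl
    have h4 := h3 a
    have h5 := h3 b
    omega

theorem signs_tau (D : Stack N n) (h : Equiv.Perm (Fin n)) (ε : Fin (n / 2) → Bool) (c : Fin N) :
    D.signs (tau ε * h) c =
      if (h (D.arc (c, false)) : ℕ) / 2 = (h (D.arc (c, true)) : ℕ) / 2 then
        xor (D.signs h c) (ev ε (h (D.arc (c, false)))) else D.signs h c := by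
  unfold Stack.signs
  rw [Equiv.Perm.mul_apply, Equiv.Perm.mul_apply,
    tau_lt ε _ _ (fun h' => D.ne c (h.injective h'))]
  split_ifs
  · rw [Bool.xor_assoc]
  · rfl

/-- the slot of a crossing (`0` if its arcs are not neighbours in one slot) -/
def slot (D : Stack N n) (h : Equiv.Perm (Fin n)) (c : Fin N) : Fin (n / 2 + 1) :=
  if h' : (h (D.arc (c, false)) : ℕ) / 2 = (h (D.arc (c, true)) : ℕ) / 2 then
    ⟨(h (D.arc (c, false)) : ℕ) / 2 + 1, by
      have h1 : (h (D.arc (c, false)) : ℕ) ≠ h (D.arc (c, true)) :=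
        fun h2 => D.ne c (h.injective (Fin.ext h2))
      have h3 := (h (D.arc (c, false))).2
      have h4 := (h (D.arc (c, true))).2
      omega⟩ else 0

/-- signs of the crossings given by signs of the slots -/
def wsig (D : Stack N n) (h : Equiv.Perm (Fin n)) (σ : Fin (n / 2 + 1) → Bool) (c : Fin N) : Bool :=
  !(xor (D.signs h c) (σ (slot D h c)))

theorem sgn_wsig (D : Stack N n) (h : Equiv.Perm (Fin n)) (σ : Fin (n / 2 + 1) → Bool) (c : Fin N) :
    sgn (wsig D h σ c) = sgn (D.signs h c) * sgn (σ (slot D h c)) := by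
  unfold wsig
  cases D.signs h c <;> cases σ (slot D h c) <;> simp [sgn]

theorem wsig_cons (D : Stack N n) (h : Equiv.Perm (Fin n)) (ε : Fin (n / 2) → Bool) :
    wsig D h (Fin.cons true (fun k => !ε k) : Fin (n / 2 + 1) → Bool) = D.signs (tau ε * h) := by
  funext c
  rw [signs_tau]
  unfold wsig slot
  split_ifs with h1
  · have h2 : (h (D.arc (c, false)) : ℕ) / 2 < n / 2 := by
      have h1' : (h (D.arc (c, false)) : ℕ) ≠ h (D.arc (c, true)) :=
        fun h2 => D.ne c (h.injective (Fin.ext h2))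
      have h3 := (h (D.arc (c, false))).2
      have h4 := (h (D.arc (c, true))).2
      omega
    have h3 : (⟨(h (D.arc (c, false)) : ℕ) / 2 + 1, by omega⟩ : Fin (n / 2 + 1)) =
        Fin.succ ⟨(h (D.arc (c, false)) : ℕ) / 2, h2⟩ := rfl
    rw [h3, Fin.cons_succ]
    unfold ev
    rw [dif_pos h2]
    cases D.signs h c <;> cases ε ⟨(h (D.arc (c, false)) : ℕ) / 2, h2⟩ <;> rfl
  · rw [Fin.cons_zero]
    cases D.signs h c <;> rfl

/-- the quadratic form in the signs of the slots -/
noncomputable def AA (D : Stack N n) (h : Equiv.Perm (Fin n)) (k l : Fin (n / 2 + 1)) : ℤ :=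
  ∑ c, ∑ d, if slot D h c = k ∧ slot D h d = l then
    adjm D.G c d * (sgn (D.signs h c) * sgn (D.signs h d)) else 0

theorem AA_symm (D : Stack N n) (h : Equiv.Perm (Fin n)) (k l : Fin (n / 2 + 1)) :
    AA D h k l = AA D h l k := by
  unfold AA
  rw [sum_comm]
  refine sum_congr rfl fun c _ => sum_congr rfl fun d _ => ?_
  rw [adjm_symm D.G d c, mul_comm (sgn (D.signs h d))]
  by_cases h1 : slot D h d = k ∧ slot D h c = l
  · rw [if_pos h1, if_pos ⟨h1.2, h1.1⟩]
  · rw [if_neg h1, if_neg (fun h2 => h1 ⟨h2.2, h2.1⟩)]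

theorem Q_AA (D : Stack N n) (h : Equiv.Perm (Fin n)) (σ : Fin (n / 2 + 1) → Bool) :
    Q (adjm D.G) (wsig D h σ) = Q (AA D h) σ := by
  unfold Q AA
  have h1 : ∀ k l : Fin (n / 2 + 1), (∑ c, ∑ d, if slot D h c = k ∧ slot D h d = l then
      adjm D.G c d * (sgn (D.signs h c) * sgn (D.signs h d)) else 0) * (sgn (σ k) * sgn (σ l)) =
      ∑ c, ∑ d, if slot D h c = k ∧ slot D h d = l then
      adjm D.G c d * (sgn (D.signs h c) * sgn (D.signs h d)) * (sgn (σ k) * sgn (σ l)) else 0 := by
    intro k l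
    rw [sum_mul]
    refine sum_congr rfl fun c _ => ?_
    rw [sum_mul]
    refine sum_congr rfl fun d _ => ?_
    rw [ite_mul, zero_mul]
  simp only [h1]
  have h2 : ∀ k : Fin (n / 2 + 1), ∑ l, ∑ c, ∑ d, (if slot D h c = k ∧ slot D h d = l then
      adjm D.G c d * (sgn (D.signs h c) * sgn (D.signs h d)) * (sgn (σ k) * sgn (σ l)) else 0) =
      ∑ c, ∑ d, if slot D h c = k then
      adjm D.G c d * (sgn (D.signs h c) * sgn (D.signs h d)) *
        (sgn (σ k) * sgn (σ (slot D h d))) else 0 := by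
    intro k
    rw [sum_comm]
    refine sum_congr rfl fun c _ => ?_
    rw [sum_comm]
    refine sum_congr rfl fun d _ => ?_
    rw [sum_eq_single (slot D h d)]
    · simp
    · intro l _ hl
      rw [if_neg (fun h' => hl h'.2.symm)]
    · intro h'; exact absurd (mem_univ _) h'
  simp only [h2]
  conv_rhs => rw [sum_comm]
  refine sum_congr rfl fun c _ => ?_
  conv_rhs => rw [sum_comm]
  refine sum_congr rfl fun d _ => ?_
  rw [sum_eq_single (slot D h c)]
  · rw [if_pos rfl, sgn_wsig, sgn_wsig]; ring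
  · intro l _ hl
    rw [if_neg (fun h' => hl h'.symm)]
  · intro h'; exact absurd (mem_univ _) h'

/-- a crossing which is alone in its slot -/
theorem slot_inj (D : Stack N n) (h : Equiv.Perm (Fin n)) (c c' : Fin N)
    (hc : (h (D.arc (c, false)) : ℕ) / 2 = (h (D.arc (c, true)) : ℕ) / 2)
    (hs : slot D h c' = slot D h c) : c' = c := by
  unfold slot at hs
  rw [dif_pos hc] at hs
  split_ifs at hs with h1
  · have h2 : (h (D.arc (c', false)) : ℕ) / 2 = (h (D.arc (c, false)) : ℕ) / 2 := by
      have := congrArg Fin.val hs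
      simp only at this
      omega
    have n1 : (h (D.arc (c, false)) : ℕ) ≠ h (D.arc (c, true)) :=
      fun h2 => D.ne c (h.injective (Fin.ext h2))
    have n2 : (h (D.arc (c', false)) : ℕ) ≠ h (D.arc (c', true)) :=
      fun h2 => D.ne c' (h.injective (Fin.ext h2))
    apply D.once
    by_cases h3 : (h (D.arc (c', false)) : ℕ) = h (D.arc (c, false))
    · have h4 : (h (D.arc (c', true)) : ℕ) = h (D.arc (c, true)) := by omega
      rw [h.injective (Fin.ext h3), h.injective (Fin.ext h4)]
    · have h4 : (h (D.arc (c', false)) : ℕ) = h (D.arc (c, true)) := by omega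
      have h5 : (h (D.arc (c', true)) : ℕ) = h (D.arc (c, false)) := by omega
      rw [h.injective (Fin.ext h4), h.injective (Fin.ext h5), Sym2.eq_swap]
  · have := congrArg Fin.val hs
    simp at this

theorem AA_entry (D : Stack N n) (h : Equiv.Perm (Fin n)) (c d : Fin N)
    (hc : (h (D.arc (c, false)) : ℕ) / 2 = (h (D.arc (c, true)) : ℕ) / 2)
    (hd : (h (D.arc (d, false)) : ℕ) / 2 = (h (D.arc (d, true)) : ℕ) / 2)
    (hx : Crosses D.G c d) : AA D h (slot D h c) (slot D h d) ≠ 0 := by
  have e : AA D h (slot D h c) (slot D h d) =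
      adjm D.G c d * (sgn (D.signs h c) * sgn (D.signs h d)) := by
    unfold AA
    rw [sum_eq_single c]
    · rw [sum_eq_single d]
      · rw [if_pos ⟨rfl, rfl⟩]
      · intro d' _ hd'
        rw [if_neg]
        rintro ⟨_, h1⟩
        exact hd' (slot_inj D h d d' hd h1)
      · intro h'; exact absurd (mem_univ _) h'
    · intro c' _ hc'
      refine sum_eq_zero fun d' _ => ?_
      rw [if_neg]
      rintro ⟨h1, _⟩
      exact hc' (slot_inj D h c c' hc h1)
    · intro h'; exact absurd (mem_univ _) h'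
  rw [e]
  unfold adjm
  rw [if_pos hx]
  have hsgn : ∀ b, sgn b ≠ 0 := by intro b; cases b <;> simp [sgn]
  simp [hsgn]

end Pool.Agent.W642.RS
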