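import Pool.Agent.W642.RS.Defs
import Pool.Agent.H832R2.JR.Decouple

set_option autoImplicit false

/-! Statements of the independent parts (subtasks RS-*). -/

namespace Pool.Agent.W642.RS

open Finset Pool.Agent.H832R2.JR


/-- the pairs `e` and `f` of numbers alternate, `e` being the first one -/
def Alt {n : ℕ} (e f : Fin n × Fin n) : Prop := e.1 < f.1 ∧ f.1 < e.2 ∧ e.2 < f.2

instance {n : ℕ} (e f : Fin n × Fin n) : Decidable (Alt e f) := by unfold Alt; infer_instance

/-- the alternating pairs of elements of `X` -/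
def altPairs {n : ℕ} (X : Finset (Fin n × Fin n)) : Finset ((Fin n × Fin n) × (Fin n × Fin n)) :=
  (X ×ˢ X).filter fun ef => Alt ef.1 ef.2

/-- `h` puts the two elements of `e` to the places `2 k` and `2 k + 1` for some `k` -/
def Paired {n : ℕ} (h : Equiv.Perm (Fin n)) (e : Fin n × Fin n) : Prop :=
  (h e.1 : ℕ) / 2 = (h e.2 : ℕ) / 2

instance {n : ℕ} (h : Equiv.Perm (Fin n)) (e : Fin n × Fin n) : Decidable (Paired h e) := by
  unfold Paired; infer_instance

/-- RS-CROSS: crossing lemma for points in convex position -/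
def S_cross : Prop := ∀ (n : ℕ) (X : Finset (Fin n × Fin n)), (∀ e ∈ X, e.1 < e.2) →
  X.card ^ 3 ≤ 108 * n ^ 2 * (altPairs X).card + 27 * n ^ 3

/-- RS-COUNT: permutations which put given disjoint pairs to neighbouring places -/
def S_count : Prop := ∀ (n j : ℕ) (p q : Fin j → Fin n), Function.Injective (Sum.elim p q) →
  (univ.filter fun h : Equiv.Perm (Fin n) => ∀ i, Paired h (p i, q i)).card *
    n.descFactorial (2 * j) = 2 ^ j * (n / 2).descFactorial j * n.factorial

/-- RS-VAR: second moment method for the number of alternating pairs put to neighbouring places -/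
def S_var : Prop := ∃ C : ℕ, ∀ (n : ℕ) (X : Finset (Fin n × Fin n)), (∀ e ∈ X, e.1 < e.2) →
  (univ.filter fun h : Equiv.Perm (Fin n) =>
    4 * n ^ 2 * ((altPairs X).filter fun ef => Paired h ef.1 ∧ Paired h ef.2).card <
      (altPairs X).card).card * (altPairs X).card ≤ C * n ^ 3 * n.factorial

open Classical in
/-- RS-POLY: a random polygon with vertices on a circle has many self-crossings -/
def S_poly : Prop := ∃ C : ℕ, ∀ n : ℕ,
  (univ.filter fun r : Equiv.Perm (Fin n) =>
    24 * (univ.filter fun ij : Fin n × Fin n => ij.1 < ij.2 ∧ EdgesCross r ij.1 ij.2).card <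
      n ^ 2).card * n ≤ C * n.factorial

/-- RS-MATCH: a set of pairs contains a large matching -/
def S_match : Prop := ∀ (s : ℕ) (E : Finset (Fin s × Fin s)), (∀ e ∈ E, e.1 ≠ e.2) →
  ∃ (m : ℕ) (u v : Fin m → Fin s), Function.Injective (Sum.elim u v) ∧
    (∀ k, (u k, v k) ∈ E) ∧ E.card ≤ 4 * m * s

/-- RS-FEW: the coefficients of the decoupled form are rarely zero for most rows (see
`Pool.Agent.H832R2.JR.decouple_LO`) -/
def S_qlo : Prop := ∀ (N m : ℕ) (A : Fin N → Fin N → ℤ), (∀ i j, A i j = A j i) →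
  ∀ (u v : Fin m → Fin N), Function.Injective (Sum.elim u v) → (∀ k, A (u k) (v k) ≠ 0) →
  ∀ c : ℤ, m * (univ.filter fun w => Q A w = c).card ^ 4 ≤ 32 * (2 ^ N) ^ 4

end Pool.Agent.W642.RS
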